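import Pool.Agent.Helper49.CF.Spread

/-!
# The bound for the probability of the bad event
-/

set_option linter.unusedSectionVars false

open Finset

namespace Pool.Agent.Helper49.CF

variable {V : Type*} [Fintype V] [DecidableEq V]

lemma Ex_sum {ι : Type*} (G : V → V → Prop) (u : ℕ) (s : Finset ι)
    (f : ι → Equiv.Perm V → Finset V → V → ℝ) :
    Ex G u (fun σ U i => ∑ j ∈ s, f j σ U i) = ∑ j ∈ s, Ex G u (f j) := by
  classical
  induction s using Finset.induction_on with
  | empty =>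
    have := Ex_mul G u 0 (fun _ _ _ => 0)
    simp only [mul_zero, zero_mul] at this
    simpa using this
  | insert a s ha ih =>
    simp only [sum_insert ha]
    rw [Ex_add, ih]

/-- short paths -/
lemma Ex_short {G : V → V → Prop} (hne : (cf G).Nonempty) {u : ℕ} (hu : 1 ≤ u)
    (hun : u ≤ Fintype.card V) (hn : 2 ≤ Fintype.card V) (m0 : ℕ) :
    Ex G u (fun σ U i => ind (tm σ U i < m0)) ≤
      pr G u + m0 * (((u : ℝ) - 1) / (Fintype.card V - 1)) := by
  have h1 : ∀ j ∈ range m0, Ex G u (fun σ U i =>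
      if (σ.symm^[j + 1] i ∈ U ∧ σ.symm^[j + 1] i ≠ i) then (1 : ℝ) else 0) ≤
      ((u : ℝ) - 1) / (Fintype.card V - 1) := by
    intro j _
    unfold Ex
    have h2 : ∀ σ ∈ cf G, av u (fun (U : Finset V) (i : V) =>
        if (σ.symm^[j + 1] i ∈ U ∧ σ.symm^[j + 1] i ≠ i) then (1 : ℝ) else 0) ≤
        ((u : ℝ) - 1) / (Fintype.card V - 1) :=
      fun σ _ => av_point_le hu hun hn (fun i => σ.symm^[j + 1] i)
    have h3 := sum_le_sum h2
    rw [sum_const, nsmul_eq_mul] at h3
    have h4 : (0 : ℝ) < (cf G).card := by exact_mod_cast card_pos.2 hne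
    rw [div_le_iff₀ h4, mul_comm]
    exact h3
  have h2 := sum_le_sum h1
  rw [sum_const, card_range, nsmul_eq_mul, ← Ex_sum] at h2
  unfold pr
  refine le_trans ?_ (add_le_add_right h2 _)
  rw [← Ex_add]
  apply Ex_mono
  intro σ _ U _ i hi
  have h0 : ∀ j ∈ range m0, (0 : ℝ) ≤
      if (σ.symm^[j + 1] i ∈ U ∧ σ.symm^[j + 1] i ≠ i) then (1 : ℝ) else 0 := by
    intro j _
    split_ifs <;> norm_num
  by_cases h : tm σ U i < m0
  · rw [ind_true h]
    by_cases hc : σ.symm^[tm σ U i + 1] i = i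
    · rw [if_pos (closing' σ hc)]
      have := sum_nonneg h0
      linarith
    · have h3 := single_le_sum h0 (mem_range.2 h)
      rw [if_pos ⟨tm_spec σ hi, hc⟩] at h3
      have : (0 : ℝ) ≤ if σ i = st σ U i then 1 else 0 := by split_ifs <;> norm_num
      linarith
  · rw [ind_false h]
    have := sum_nonneg h0
    have : (0 : ℝ) ≤ if σ i = st σ U i then 1 else 0 := by split_ifs <;> norm_num
    linarith

/-- long paths -/
lemma Ex_long {G : V → V → Prop} (hne : (cf G).Nonempty) {u : ℕ} (hu : 1 ≤ u)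
    (hun : u ≤ Fintype.card V) {m1 : ℝ} (hm1 : 0 < m1) :
    Ex G u (fun σ U i => ind (m1 < (tm σ U i : ℝ))) ≤ (Fintype.card V : ℝ) / u / m1 := by
  have h1 : Ex G u (fun σ U i => ind (m1 < (tm σ U i : ℝ))) ≤
      Ex G u (fun σ U i => 1 / m1 * ((tm σ U i : ℝ) + 1)) := by
    apply Ex_mono
    intro σ _ U _ i _
    have : (0 : ℝ) ≤ (tm σ U i : ℝ) := by positivity
    by_cases h : m1 < (tm σ U i : ℝ)
    · rw [ind_true h, one_div, ← div_eq_inv_mul, le_div_iff₀ hm1]
      linarith
    · rw [ind_false h]; positivity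
  refine h1.trans ?_
  rw [Ex_mul]
  have h2 : Ex G u (fun σ U i => (tm σ U i : ℝ) + 1) ≤ (Fintype.card V : ℝ) / u := by
    unfold Ex
    have hC : (0 : ℝ) < (Fintype.card V).choose u := by exact_mod_cast Nat.choose_pos hun
    have hu' : (0 : ℝ) < u := by exact_mod_cast hu
    have h3 : ∀ σ ∈ cf G, av u (fun (U : Finset V) (i : V) => (tm σ U i : ℝ) + 1) ≤
        (Fintype.card V : ℝ) / u := by
      intro σ _
      unfold av
      rw [div_le_div_iff₀ (by positivity) hu']
      have h4 : ∀ U ∈ powersetCard u (univ : Finset V), ∑ i ∈ U, ((tm σ U i : ℝ) + 1) ≤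
          (Fintype.card V : ℝ) := by
        intro U _
        have := sum_tm_le σ U
        exact_mod_cast this
      have h5 := sum_le_sum h4
      rw [sum_const, card_powersetCard, card_univ, nsmul_eq_mul] at h5
      have h6 := mul_le_mul_of_nonneg_right h5 hu'.le
      linarith
    have h4 := sum_le_sum h3
    rw [sum_const, nsmul_eq_mul] at h4
    have h5 : (0 : ℝ) < (cf G).card := by exact_mod_cast card_pos.2 hne
    rw [div_le_iff₀ h5, mul_comm]
    exact h4
  have h3 := mul_le_mul_of_nonneg_left h2 (show 0 ≤ 1 / m1 by positivity)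
  refine h3.trans (le_of_eq ?_)
  ring

theorem beta_le {G : V → V → Prop} {d u t : ℕ} (hG : Reg G d) (hne : (cf G).Nonempty)
    (hd : 1 ≤ d) (hu : 1 ≤ u) (ht : 1 ≤ t) (hut : u + t ≤ Fintype.card V)
    (hn : 2 ≤ Fintype.card V) {K θ : ℝ} (hK0 : 0 < K) (hK : 1 < Real.log K) (hθ : 1 < θ)
    {m0 : ℕ} (hm0 : 1 ≤ m0) :
    beta G d u θ ≤ pr G u + m0 * (((u : ℝ) - 1) / (Fintype.card V - 1)) +
      2 * Fintype.card V * t / (u * ((Fintype.card V : ℝ) - u)) +
      2 * ((Fintype.card V : ℝ) - u) / (m0 * t) *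
        (K / Dn d (Fintype.card V) t * (Dn d (Fintype.card V) u * sl G d u / phi θ) +
          (t : ℝ) / u * (sl G d t / (Real.log K - 1))) := by
  have hun : u ≤ Fintype.card V := by omega
  have htn : t ≤ Fintype.card V := by omega
  have ht' : (0 : ℝ) < t := by exact_mod_cast ht
  have hu' : (0 : ℝ) < u := by exact_mod_cast hu
  have hm0' : (0 : ℝ) < m0 := by exact_mod_cast hm0
  have hr : (0 : ℝ) < (Fintype.card V : ℝ) - u := by
    have : (u : ℝ) + t ≤ Fintype.card V := by exact_mod_cast hut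
    linarith
  have hDu := Dn_ge_one hd hn hu
  have hDt := Dn_ge_one hd hn ht
  set m1 : ℝ := ((Fintype.card V : ℝ) - u) / (2 * t) with hm1
  have hm1' : 0 < m1 := by positivity
  have h1 := spread (G := G) hne hu ht hut (D := Dn d (Fintype.card V) u)
    (D3 := Dn d (Fintype.card V) t) (K := K) (θ := θ) (by linarith) hK0.le
    (by linarith) (m0 := m0) (m1 := m1) (by
      rw [hm1]
      apply le_of_eq
      field_simp)
  have h2 := Ex_big hG hne hd hu hun hn hθ
  have h3 := Ex_tail hG hne hd ht htn hn hK0 hK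
  have h4 := Ex_short hne hu hun hn m0
  have h5 := Ex_long hne hu hun hm1'
  set E1 := Ex G u (fun σ U i => ind (Bad G (Dn d (Fintype.card V) u) θ σ U i ∧
    (m0 ≤ tm σ U i ∧ (tm σ U i : ℝ) ≤ m1))) with hE1
  have h6 : beta G d u θ ≤ Ex G u (fun σ U i => ind (tm σ U i < m0)) +
      Ex G u (fun σ U i => ind (m1 < (tm σ U i : ℝ))) + E1 := by
    rw [hE1, ← Ex_add, ← Ex_add]
    unfold beta
    apply Ex_mono
    intro σ _ U _ i _
    have p1 := ind_nonneg (tm σ U i < m0)
    have p2 := ind_nonneg (m1 < (tm σ U i : ℝ))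
    have p3 := ind_nonneg (Bad G (Dn d (Fintype.card V) u) θ σ U i ∧
      (m0 ≤ tm σ U i ∧ (tm σ U i : ℝ) ≤ m1))
    have p4 := ind_le_one (Bad G (Dn d (Fintype.card V) u) θ σ U i)
    by_cases c1 : tm σ U i < m0
    · rw [ind_true c1]; linarith
    · by_cases c2 : m1 < (tm σ U i : ℝ)
      · rw [ind_true c2]; linarith
      · have : ind (Bad G (Dn d (Fintype.card V) u) θ σ U i) ≤
            ind (Bad G (Dn d (Fintype.card V) u) θ σ U i ∧
              (m0 ≤ tm σ U i ∧ (tm σ U i : ℝ) ≤ m1)) :=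
          ind_mono fun h => ⟨h, not_lt.1 c1, not_lt.1 c2⟩
        linarith
  have h7 : E1 ≤ 2 * ((Fintype.card V : ℝ) - u) / (m0 * t) *
        (K / Dn d (Fintype.card V) t * (Dn d (Fintype.card V) u * sl G d u / phi θ) +
          (t : ℝ) / u * (sl G d t / (Real.log K - 1))) := by
    have h8 : (m0 : ℝ) * t / (2 * ((Fintype.card V : ℝ) - u)) * E1 ≤
        (K / Dn d (Fintype.card V) t * (Dn d (Fintype.card V) u * sl G d u / phi θ) +
          (t : ℝ) / u * (sl G d t / (Real.log K - 1))) := by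
      refine h1.trans ?_
      apply add_le_add
      · exact mul_le_mul_of_nonneg_left h2 (by positivity)
      · exact mul_le_mul_of_nonneg_left h3 (by positivity)
    have h9 := mul_le_mul_of_nonneg_left h8
      (show 0 ≤ 2 * ((Fintype.card V : ℝ) - u) / (m0 * t) by positivity)
    refine le_trans (le_of_eq ?_) h9
    field_simp
  have h8 : (Fintype.card V : ℝ) / u / m1 =
      2 * Fintype.card V * t / (u * ((Fintype.card V : ℝ) - u)) := by
    rw [hm1]
    field_simp
  rw [h8] at h5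
  linarith

end Pool.Agent.Helper49.CF
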