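import Pool.Agent.Helper49.CF.Slack

/-!
# The closing probability at one level
-/

set_option linter.unusedSectionVars false

open Finset

namespace Pool.Agent.Helper49.CF

variable {V : Type*} [Fintype V] [DecidableEq V]

open Classical in
/-- indicator -/
noncomputable def ind (p : Prop) : ℝ := if p then 1 else 0

lemma ind_nonneg (p : Prop) : 0 ≤ ind p := by
  unfold ind; split_ifs <;> norm_num

lemma ind_le_one (p : Prop) : ind p ≤ 1 := by
  unfold ind; split_ifs <;> norm_num

lemma ind_true {p : Prop} (h : p) : ind p = 1 := if_pos h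

lemma ind_false {p : Prop} (h : ¬ p) : ind p = 0 := if_neg h

lemma ind_mono {p q : Prop} (h : p → q) : ind p ≤ ind q := by
  by_cases hp : p
  · rw [ind_true hp, ind_true (h hp)]
  · rw [ind_false hp]; exact ind_nonneg _

/-- the closing probability is the mean of the conditional probability of the start of the path -/
lemma pr_eq (G : V → V → Prop) (u : ℕ) : pr G u = Ex G u (fun σ U i => b G U σ i (st σ U i)) := by
  unfold pr
  rw [Ex_tower u (fun σ U i c => if c = st σ U i then (1 : ℝ) else 0)]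
  · apply Ex_congr
    intro σ _ U _ i _
    simp
  · intro U i hi σ _ τ _ h
    funext c
    rw [st_congr hi h]

/-- the bad event -/
def Bad (G : V → V → Prop) (D θ : ℝ) (σ : Equiv.Perm V) (U : Finset V) (i : V) : Prop :=
  θ ≤ D * b G U σ i (st σ U i)

/-- the probability of the bad event -/
noncomputable def beta (G : V → V → Prop) (d u : ℕ) (θ : ℝ) : ℝ :=
  Ex G u (fun σ U i => ind (Bad G (Dn d (Fintype.card V) u) θ σ U i))

lemma b_le_tail {G : V → V → Prop} {D K : ℝ} {σ : Equiv.Perm V} {U : Finset V} {i c : V}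
    (hi : i ∈ U) (h : K < D * b G U σ i c) : b G U σ i c ≤ tail G D K σ U i := by
  by_cases hc : c ∈ avl G U σ i
  · unfold tail
    have h1 := single_le_sum (f := fun c => if K < D * b G U σ i c then b G U σ i c else 0)
      (fun c _ => by
        split_ifs
        · exact b_nonneg _ _ _ _ _
        · exact le_rfl) hc
    rwa [if_pos h] at h1
  · rw [b_eq_zero hi hc]
    exact tail_nonneg _ _ _ _ _ _

lemma pr_le {G : V → V → Prop} {d u : ℕ} (hG : Reg G d) (hne : (cf G).Nonempty) (hd : 1 ≤ d)
    (hu : 1 ≤ u) (hun : u ≤ Fintype.card V) (hn : 2 ≤ Fintype.card V) {K θ : ℝ}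
    (hK0 : 0 < K) (hK : 1 < Real.log K) (hθ : 0 ≤ θ) :
    pr G u ≤ θ / Dn d (Fintype.card V) u + K / Dn d (Fintype.card V) u * beta G d u θ +
      sl G d u / (Real.log K - 1) := by
  have h1 := Ex_tail hG hne hd hu hun hn hK0 hK
  have hD1 := Dn_ge_one hd hn hu
  rw [pr_eq]
  unfold beta
  set D := Dn d (Fintype.card V) u with hD
  rw [← Ex_mul]
  have h2 : θ / D = Ex G u (fun _ _ _ => θ / D) := (Ex_const hne hu hun _).symm
  refine le_trans ?_ (add_le_add_right h1 _)
  rw [h2, ← Ex_add, ← Ex_add]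
  apply Ex_mono
  intro σ _ U _ i hi
  have h3 := b_nonneg G U σ i (st σ U i)
  have h4 : 0 ≤ θ / D := by positivity
  have h5 : 0 ≤ K / D := by positivity
  by_cases hb : Bad G D θ σ U i
  · rw [ind_true hb]
    by_cases hk : K < D * b G U σ i (st σ U i)
    · have := b_le_tail hi hk
      linarith
    · rw [not_lt] at hk
      have h6 : b G U σ i (st σ U i) ≤ K / D := by
        rw [le_div_iff₀ (by linarith)]; linarith
      have := tail_nonneg G D K σ U i
      linarith
  · rw [ind_false hb]
    unfold Bad at hb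
    rw [not_le] at hb
    have h6 : b G U σ i (st σ U i) ≤ θ / D := by
      rw [le_div_iff₀ (by linarith)]; linarith
    have := tail_nonneg G D K σ U i
    linarith

lemma beta_le_one {G : V → V → Prop} {d u : ℕ} (hne : (cf G).Nonempty)
    (hu : 1 ≤ u) (hun : u ≤ Fintype.card V) (θ : ℝ) : beta G d u θ ≤ 1 := by
  rw [← Ex_const hne hu hun 1]
  exact Ex_mono fun _ _ _ _ _ _ => ind_le_one _

lemma pr_le_one {G : V → V → Prop} {u : ℕ} (hne : (cf G).Nonempty)
    (hu : 1 ≤ u) (hun : u ≤ Fintype.card V) : pr G u ≤ 1 := by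
  rw [← Ex_const hne hu hun 1, pr_eq]
  exact Ex_mono fun _ _ _ _ _ _ => b_le_one _ _ _ _ _

/-- the crude bound -/
lemma pr_le' {G : V → V → Prop} {d u : ℕ} (hG : Reg G d) (hne : (cf G).Nonempty) (hd : 1 ≤ d)
    (hu : 1 ≤ u) (hun : u ≤ Fintype.card V) (hn : 2 ≤ Fintype.card V) {K : ℝ}
    (hK0 : 0 < K) (hK : 1 < Real.log K) :
    pr G u ≤ K / Dn d (Fintype.card V) u + sl G d u / (Real.log K - 1) := by
  have h := pr_le hG hne hd hu hun hn hK0 hK (le_refl 0)
  have hD1 := Dn_ge_one hd hn hu
  have h1 := beta_le_one (d := d) hne hu hun 0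
  rw [zero_div, zero_add] at h
  have h2 : K / Dn d (Fintype.card V) u * beta G d u 0 ≤ K / Dn d (Fintype.card V) u * 1 :=
    mul_le_mul_of_nonneg_left h1 (by positivity)
  linarith

end Pool.Agent.Helper49.CF
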