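import Pool.Agent.Helper49.CF.Tel

/-!
# Cycle-factors, conditional probabilities and the tower property
-/

set_option linter.unusedSectionVars false

open Finset

namespace Pool.Agent.Helper49.CF

variable {V : Type*} [Fintype V] [DecidableEq V]

lemma app_inv {α : Type*} (σ : Equiv.Perm α) (x : α) : σ (σ⁻¹ x) = x := Equiv.apply_symm_apply σ x

lemma inv_app {α : Type*} (σ : Equiv.Perm α) (x : α) : σ⁻¹ (σ x) = x := Equiv.symm_apply_apply σ x

lemma mem_cf {G : V → V → Prop} {σ : Equiv.Perm V} : σ ∈ cf G ↔ ∀ v, G v (σ v) := by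
  simp [cf]

/-- the cycle-factors that agree with `σ` off `U` -/
noncomputable def cls (G : V → V → Prop) (U : Finset V) (σ : Equiv.Perm V) :
    Finset (Equiv.Perm V) :=
  (cf G).filter fun τ => ∀ j ∉ U, τ j = σ j

lemma mem_cls {G : V → V → Prop} {U : Finset V} {σ τ : Equiv.Perm V} :
    τ ∈ cls G U σ ↔ τ ∈ cf G ∧ ∀ j ∉ U, τ j = σ j := by
  simp [cls]

lemma self_mem_cls {G : V → V → Prop} {U : Finset V} {σ : Equiv.Perm V} (h : σ ∈ cf G) :
    σ ∈ cls G U σ := mem_cls.2 ⟨h, fun _ _ => rfl⟩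

lemma cls_congr {G : V → V → Prop} {U : Finset V} {σ τ : Equiv.Perm V}
    (h : ∀ j ∉ U, τ j = σ j) : cls G U τ = cls G U σ := by
  ext ρ
  simp only [mem_cls, and_congr_right_iff]
  intro _
  exact ⟨fun h1 j hj => (h1 j hj).trans (h j hj), fun h1 j hj => (h1 j hj).trans (h j hj).symm⟩

/-- the conditional probability of `τ i = c` given that `τ = σ` off `U` -/
noncomputable def b (G : V → V → Prop) (U : Finset V) (σ : Equiv.Perm V) (i c : V) : ℝ :=
  (((cls G U σ).filter fun τ => τ i = c).card : ℝ) / ((cls G U σ).card : ℝ)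

lemma b_nonneg (G : V → V → Prop) (U : Finset V) (σ : Equiv.Perm V) (i c : V) :
    0 ≤ b G U σ i c := by unfold b; positivity

lemma b_le_one (G : V → V → Prop) (U : Finset V) (σ : Equiv.Perm V) (i c : V) :
    b G U σ i c ≤ 1 := by
  unfold b
  apply div_le_one_of_le₀ _ (by positivity)
  exact_mod_cast card_filter_le _ _

lemma b_congr {G : V → V → Prop} {U : Finset V} {σ τ : Equiv.Perm V} (i c : V)
    (h : ∀ j ∉ U, τ j = σ j) : b G U τ i c = b G U σ i c := by
  unfold b; rw [cls_congr h]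

/-- `b` depends only on the set of the images of `U` -/
lemma b_congr' {G : V → V → Prop} {U : Finset V} {σ τ : Equiv.Perm V} (hσ : σ ∈ cf G)
    (hτ : τ ∈ cf G) (i c : V) (hi : i ∈ U)
    (h : ∀ j ∈ U, τ j = σ j) : b G U τ i c = b G U σ i c := by
  have key : ∀ σ τ : Equiv.Perm V, σ ∈ cf G → τ ∈ cf G → (∀ j ∈ U, τ j = σ j) →
      ∀ ρ ∈ cls G U σ, (∀ j ∈ U, (τ * σ⁻¹ * ρ) j = ρ j) ∧ (τ * σ⁻¹ * ρ) ∈ cls G U τ := by
    intro σ τ hσ hτ h ρ hρ
    rw [mem_cls] at hρ
    have h1 : ∀ j ∈ U, (τ * σ⁻¹ * ρ) j = ρ j := by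
      intro j hj
      have h2 : σ⁻¹ (ρ j) ∈ U := by
        by_contra hc
        have h3 := hρ.2 _ hc
        rw [app_inv] at h3
        have h4 := ρ.injective h3
        rw [h4] at hc
        exact hc hj
      simp only [Equiv.Perm.mul_apply]
      rw [h _ h2, app_inv]
    have h2 : ∀ j ∉ U, (τ * σ⁻¹ * ρ) j = τ j := by
      intro j hj
      simp only [Equiv.Perm.mul_apply]
      rw [hρ.2 j hj, inv_app]
    refine ⟨h1, mem_cls.2 ⟨mem_cf.2 fun v => ?_, h2⟩⟩
    by_cases hv : v ∈ U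
    · rw [h1 v hv]; exact mem_cf.1 hρ.1 v
    · rw [h2 v hv]; exact mem_cf.1 hτ v
  have k1 := key σ τ hσ hτ h
  have k2 := key τ σ hτ hσ (fun j hj => (h j hj).symm)
  have e1 : (cls G U τ).card = (cls G U σ).card := by
    refine card_nbij' (fun ρ => σ * τ⁻¹ * ρ) (fun ρ => τ * σ⁻¹ * ρ) ?_ ?_ ?_ ?_
    · intro ρ hρ; exact (k2 ρ hρ).2
    · intro ρ hρ; exact (k1 ρ hρ).2
    · intro ρ hρ; simp [mul_assoc]
    · intro ρ hρ; simp [mul_assoc]
  have e2 : ((cls G U τ).filter fun ρ => ρ i = c).card =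
      ((cls G U σ).filter fun ρ => ρ i = c).card := by
    refine card_nbij' (fun ρ => σ * τ⁻¹ * ρ) (fun ρ => τ * σ⁻¹ * ρ) ?_ ?_ ?_ ?_
    · intro ρ hρ
      simp only [coe_filter, Set.mem_ofPred_eq] at hρ ⊢
      exact ⟨(k2 ρ hρ.1).2, by rw [(k2 ρ hρ.1).1 i hi]; exact hρ.2⟩
    · intro ρ hρ
      simp only [coe_filter, Set.mem_ofPred_eq] at hρ ⊢
      exact ⟨(k1 ρ hρ.1).2, by rw [(k1 ρ hρ.1).1 i hi]; exact hρ.2⟩
    · intro ρ hρ; simp [mul_assoc]
    · intro ρ hρ; simp [mul_assoc]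
  unfold b
  rw [e1, e2]

/-- the values that are available for `i` -/
noncomputable def avl (G : V → V → Prop) (U : Finset V) (σ : Equiv.Perm V) (i : V) : Finset V := by
  classical exact (U.image σ).filter fun c => G i c

lemma mem_avl {G : V → V → Prop} {U : Finset V} {σ : Equiv.Perm V} {i c : V} :
    c ∈ avl G U σ i ↔ σ⁻¹ c ∈ U ∧ G i c := by
  unfold avl
  simp only [mem_filter, mem_image, and_congr_left_iff]
  intro _
  constructor
  · rintro ⟨a, ha, rfl⟩; simpa using ha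
  · intro h; exact ⟨_, h, by simp⟩

lemma b_eq_zero {G : V → V → Prop} {U : Finset V} {σ : Equiv.Perm V} {i c : V} (hi : i ∈ U)
    (hc : c ∉ avl G U σ i) : b G U σ i c = 0 := by
  unfold b
  have : ((cls G U σ).filter fun τ => τ i = c) = ∅ := by
    rw [filter_eq_empty_iff]
    intro τ hτ h
    subst h
    apply hc
    rw [mem_avl]
    rw [mem_cls] at hτ
    refine ⟨?_, mem_cf.1 hτ.1 i⟩
    by_contra h1
    have h2 := hτ.2 _ h1
    rw [app_inv] at h2
    rw [τ.injective h2] at h1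
    exact h1 hi
  rw [this]; simp

lemma sum_b {G : V → V → Prop} {U : Finset V} {σ : Equiv.Perm V} (hσ : σ ∈ cf G) (i : V) :
    ∑ c, b G U σ i c = 1 := by
  unfold b
  rw [← sum_div, ← Nat.cast_sum]
  have h : ∑ c, ((cls G U σ).filter fun τ => τ i = c).card = (cls G U σ).card := by
    rw [← card_eq_sum_card_fiberwise (fun _ _ => mem_coe.2 (mem_univ _))]
  rw [h, div_self]
  have : 0 < (cls G U σ).card := card_pos.2 ⟨σ, self_mem_cls hσ⟩
  positivity

lemma sum_b_avl {G : V → V → Prop} {U : Finset V} {σ : Equiv.Perm V} (hσ : σ ∈ cf G) {i : V}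
    (hi : i ∈ U) : ∑ c ∈ avl G U σ i, b G U σ i c = 1 := by
  rw [← sum_b hσ i (U := U)]
  apply sum_subset (subset_univ _)
  intro c _ hc
  exact b_eq_zero hi hc

/-- the tower property -/
lemma tower {G : V → V → Prop} (U : Finset V) (i : V) (f : Equiv.Perm V → V → ℝ)
    (hf : ∀ σ ∈ cf G, ∀ τ ∈ cf G, (∀ j ∉ U, τ j = σ j) → f τ = f σ) :
    ∑ σ ∈ cf G, f σ (σ i) = ∑ σ ∈ cf G, ∑ c, b G U σ i c * f σ c := by
  have h1 : ∀ σ ∈ cf G, ∑ c, b G U σ i c * f σ c =
      ∑ τ ∈ cf G, if (∀ j ∉ U, τ j = σ j) then f τ (τ i) / ((cls G U τ).card : ℝ) else 0 := by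
    intro σ hσ
    rw [← sum_filter]
    have h2 : ∀ c, b G U σ i c * f σ c =
        ∑ τ ∈ (cls G U σ).filter (fun τ => τ i = c), f τ (τ i) / ((cls G U τ).card : ℝ) := by
      intro c
      have h3 : ∀ τ ∈ (cls G U σ).filter (fun τ => τ i = c),
          f τ (τ i) / ((cls G U τ).card : ℝ) = f σ c / ((cls G U σ).card : ℝ) := by
        intro τ hτ
        rw [mem_filter, mem_cls] at hτ
        rw [hf σ hσ τ hτ.1.1 hτ.1.2, hτ.2, cls_congr hτ.1.2]
      rw [sum_congr rfl h3, sum_const, nsmul_eq_mul]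
      unfold b
      ring
    simp only [h2]
    rw [sum_fiberwise_of_maps_to (s := cls G U σ) (t := univ) (g := fun τ => τ i)
      (fun _ _ => mem_univ _)]
    rfl
  rw [sum_congr rfl h1, sum_comm]
  refine sum_congr rfl fun τ hτ => ?_
  rw [← sum_filter]
  have h3 : (cf G).filter (fun σ => ∀ j ∉ U, τ j = σ j) = cls G U τ := by
    ext σ
    simp only [mem_filter, mem_cls, and_congr_right_iff]
    intro _
    exact ⟨fun h j hj => (h j hj).symm, fun h j hj => (h j hj).symm⟩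
  rw [h3, sum_const, nsmul_eq_mul]
  have : 0 < (cls G U τ).card := card_pos.2 ⟨τ, self_mem_cls hτ⟩
  field_simp

end Pool.Agent.Helper49.CF
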