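import Pool.Agent.Helper49.CF.Start

/-!
# Counting subsets that contain given elements
-/

set_option linter.unusedSectionVars false

open Finset

namespace Pool.Agent.Helper49.CF

section
variable {α : Type*} [DecidableEq α]

lemma card_pc_mem {S : Finset α} {x : α} (hx : x ∈ S) (k : ℕ) :
    ((powersetCard (k + 1) S).filter fun T => x ∈ T).card = (S.card - 1).choose k := by
  rw [← card_erase_of_mem hx, ← card_powersetCard]
  refine card_nbij' (fun T => T.erase x) (fun T => insert x T) ?_ ?_ ?_ ?_
  · intro T hT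
    simp only [coe_filter, mem_powersetCard, Set.mem_ofPred_eq, mem_coe] at hT ⊢
    refine ⟨?_, ?_⟩
    · exact erase_subset_erase _ hT.1.1
    · rw [card_erase_of_mem hT.2, hT.1.2]; rfl
  · intro T hT
    simp only [coe_filter, mem_powersetCard, Set.mem_ofPred_eq, mem_coe] at hT ⊢
    have hxT : x ∉ T := fun h => by simpa using hT.1 h
    refine ⟨⟨?_, ?_⟩, mem_insert_self _ _⟩
    · intro y hy
      rw [mem_insert] at hy
      rcases hy with rfl | hy
      · exact hx
      · exact mem_of_mem_erase (hT.1 hy)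
    · rw [card_insert_of_notMem hxT, hT.2]
  · intro T hT
    simp only [coe_filter, mem_powersetCard, Set.mem_ofPred_eq] at hT
    simp [insert_erase hT.2]
  · intro T hT
    simp only [mem_powersetCard, mem_coe] at hT
    have hxT : x ∉ T := fun h => by simpa using hT.1 h
    simp [erase_insert hxT]

lemma card_pc_mem2 {S : Finset α} {x y : α} (hx : x ∈ S) (hy : y ∈ S) (hxy : x ≠ y) (k : ℕ) :
    ((powersetCard (k + 2) S).filter fun T => x ∈ T ∧ y ∈ T).card = (S.card - 2).choose k := by
  have h1 : S.card - 2 = (S.erase x).card - 1 := by rw [card_erase_of_mem hx]; omega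
  rw [h1, ← card_pc_mem (S := S.erase x) (x := y) (mem_erase.2 ⟨hxy.symm, hy⟩) k]
  refine card_nbij' (fun T => T.erase x) (fun T => insert x T) ?_ ?_ ?_ ?_
  · intro T hT
    simp only [coe_filter, mem_powersetCard, Set.mem_ofPred_eq, mem_erase] at hT ⊢
    refine ⟨⟨?_, ?_⟩, hxy.symm, hT.2.2⟩
    · exact erase_subset_erase _ hT.1.1
    · rw [card_erase_of_mem hT.2.1, hT.1.2]; rfl
  · intro T hT
    simp only [coe_filter, mem_powersetCard, Set.mem_ofPred_eq] at hT ⊢
    have hxT : x ∉ T := fun h => by simpa using hT.1.1 h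
    refine ⟨⟨?_, ?_⟩, mem_insert_self _ _, mem_insert_of_mem hT.2⟩
    · intro y hy
      rw [mem_insert] at hy
      rcases hy with rfl | hy
      · exact hx
      · exact mem_of_mem_erase (hT.1.1 hy)
    · rw [card_insert_of_notMem hxT, hT.1.2]
  · intro T hT
    simp only [coe_filter, mem_powersetCard, Set.mem_ofPred_eq] at hT
    simp [insert_erase hT.2.1]
  · intro T hT
    simp only [coe_filter, mem_powersetCard, Set.mem_ofPred_eq] at hT
    have hxT : x ∉ T := fun h => by simpa using hT.1.1 h
    simp [erase_insert hxT]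

lemma card_pc_mem_real {S : Finset α} {x : α} (hx : x ∈ S) (k : ℕ) :
    (((powersetCard k S).filter fun T => x ∈ T).card : ℝ) =
      (k : ℝ) / S.card * (S.card).choose k := by
  have hS : 0 < S.card := card_pos.2 ⟨x, hx⟩
  rcases k with _ | k
  · have h0 : ((powersetCard 0 S).filter fun T => x ∈ T) = ∅ := by
      ext T
      simp only [powersetCard_zero, mem_filter, mem_singleton, notMem_empty, iff_false, not_and]
      rintro rfl; simp
    rw [h0]; simp
  · rw [card_pc_mem hx]
    obtain ⟨m, hm⟩ : ∃ m, S.card = m + 1 := ⟨S.card - 1, by omega⟩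
    rw [hm]
    have h := Nat.add_one_mul_choose_eq m k
    have h2 : ((m : ℝ) + 1) * (m.choose k) = ((m + 1).choose (k + 1)) * (k + 1) := by
      exact_mod_cast h
    simp only [Nat.add_sub_cancel]
    push_cast
    field_simp
    linarith

lemma card_pc_mem2_real {S : Finset α} {x y : α} (hx : x ∈ S) (hy : y ∈ S) (hxy : x ≠ y) (k : ℕ) :
    (((powersetCard k S).filter fun T => x ∈ T ∧ y ∈ T).card : ℝ) =
      (k : ℝ) * (k - 1) / (S.card * (S.card - 1)) * (S.card).choose k := by
  have hS : 1 < S.card := one_lt_card.2 ⟨x, hx, y, hy, hxy⟩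
  rcases k with _ | k
  · have h0 : ((powersetCard 0 S).filter fun T => x ∈ T ∧ y ∈ T) = ∅ := by
      ext T
      simp only [powersetCard_zero, mem_filter, mem_singleton, notMem_empty, iff_false, not_and]
      rintro rfl; simp
    rw [h0]; simp
  rcases k with _ | k
  · have : ((powersetCard (0 + 1) S).filter fun T => x ∈ T ∧ y ∈ T) = ∅ := by
      rw [filter_eq_empty_iff]
      intro T hT h
      rw [mem_powersetCard] at hT
      have : 1 < T.card := one_lt_card.2 ⟨x, h.1, y, h.2, hxy⟩
      omega
    rw [this]; simp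
  · rw [card_pc_mem2 hx hy hxy]
    obtain ⟨m, hm⟩ : ∃ m, S.card = m + 2 := ⟨S.card - 2, by omega⟩
    rw [hm]
    have h := Nat.add_one_mul_choose_eq m k
    have h' := Nat.add_one_mul_choose_eq (m + 1) (k + 1)
    have h2 : ((m : ℝ) + 1) * (m.choose k) = ((m + 1).choose (k + 1)) * (k + 1) := by
      exact_mod_cast h
    have h3 : ((m : ℝ) + 1 + 1) * ((m + 1).choose (k + 1)) =
        ((m + 1 + 1).choose (k + 1 + 1)) * (k + 1 + 1) := by
      exact_mod_cast h'
    simp only [Nat.add_sub_cancel]
    push_cast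
    have e1 : (m : ℝ) + 2 - 1 = m + 1 := by ring
    rw [e1]
    have e2 : ((m + 1 + 1).choose (k + 1 + 1) : ℝ) = ((m + 2).choose (k + 1 + 1) : ℝ) := rfl
    rw [e2] at h3
    field_simp
    have : (m : ℝ) + 1 ≠ 0 := by positivity
    nlinarith [h2, h3]

/-- lower bound for the number of the sets `T` which contain exactly one of `m` given elements -/
lemma exactly_one {S : Finset α} (k m : ℕ) (x : ℕ → α) (hx : ∀ a < m, x a ∈ S)
    (hinj : ∀ a < m, ∀ c < m, x a = x c → a = c) (hk : k ≤ S.card)
    (hm : (m : ℝ) * k / S.card ≤ 1 / 2) :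
    ((S.card).choose k : ℝ) * ((m : ℝ) * k / (2 * S.card)) ≤
      (((powersetCard k S).filter fun T => ∃ a < m, x a ∈ T ∧ ∀ c < m, c ≠ a → x c ∉ T).card : ℝ)
      := by
  have h1 : ∀ T ∈ powersetCard k S,
      2 * (∑ a ∈ range m, if x a ∈ T then (1 : ℝ) else 0) -
        (∑ a ∈ range m, if x a ∈ T then (1 : ℝ) else 0) ^ 2 ≤
      if (∃ a < m, x a ∈ T ∧ ∀ c < m, c ≠ a → x c ∉ T) then 1 else 0 := by
    intro T _
    have e : (∑ a ∈ range m, if x a ∈ T then (1 : ℝ) else 0) =
        (((range m).filter fun a => x a ∈ T).card : ℝ) := by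
      rw [← sum_filter, sum_const, nsmul_eq_mul, mul_one]
    rw [e]
    set X := ((range m).filter fun a => x a ∈ T).card with hX
    split_ifs with hc
    · nlinarith [sq_nonneg ((X : ℝ) - 1)]
    · have h2 : X ≠ 1 := by
        intro h
        rw [hX, card_eq_one] at h
        obtain ⟨a, ha⟩ := h
        apply hc
        have h3 : a ∈ (range m).filter fun a => x a ∈ T := by rw [ha]; simp
        rw [mem_filter, mem_range] at h3
        refine ⟨a, h3.1, h3.2, ?_⟩
        intro c hc1 hca hcT
        have h4 : c ∈ (range m).filter fun a => x a ∈ T := by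
          rw [mem_filter, mem_range]; exact ⟨hc1, hcT⟩
        rw [ha, mem_singleton] at h4
        exact hca h4
      rcases Nat.eq_zero_or_pos X with h0 | h0
      · rw [h0]; simp
      · have : (2 : ℝ) ≤ X := by exact_mod_cast (by omega : 2 ≤ X)
        nlinarith
  have h2 := sum_le_sum h1
  have h3 : ∑ T ∈ powersetCard k S, (∑ a ∈ range m, if x a ∈ T then (1 : ℝ) else 0) =
      m * ((k : ℝ) / S.card * (S.card).choose k) := by
    rw [sum_comm]
    have : ∀ a ∈ range m, ∑ T ∈ powersetCard k S, (if x a ∈ T then (1 : ℝ) else 0) =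
        (k : ℝ) / S.card * (S.card).choose k := by
      intro a ha
      rw [mem_range] at ha
      rw [← sum_filter, sum_const, nsmul_eq_mul, mul_one, card_pc_mem_real (hx a ha)]
    rw [sum_congr rfl this, sum_const, card_range, nsmul_eq_mul]
  have h4 : ∑ T ∈ powersetCard k S, (∑ a ∈ range m, if x a ∈ T then (1 : ℝ) else 0) ^ 2 ≤
      m * ((k : ℝ) / S.card * (S.card).choose k) +
      m * m * ((k : ℝ) / S.card) ^ 2 * (S.card).choose k := by
    have e : ∀ T : Finset α, (∑ a ∈ range m, if x a ∈ T then (1 : ℝ) else 0) ^ 2 =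
        ∑ a ∈ range m, ∑ c ∈ range m, if (x a ∈ T ∧ x c ∈ T) then (1 : ℝ) else 0 := by
      intro T
      rw [sq, sum_mul_sum]
      refine sum_congr rfl fun a _ => sum_congr rfl fun c _ => ?_
      by_cases ha : x a ∈ T <;> by_cases hc : x c ∈ T <;> simp [ha, hc]
    simp only [e]
    rw [sum_comm]
    have h5 : ∀ a ∈ range m, ∑ T ∈ powersetCard k S, ∑ c ∈ range m,
        (if (x a ∈ T ∧ x c ∈ T) then (1 : ℝ) else 0) ≤
        (k : ℝ) / S.card * (S.card).choose k + m * (((k : ℝ) / S.card) ^ 2 * (S.card).choose k)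
        := by
      intro a ha
      rw [sum_comm]
      have hS : 0 < S.card := card_pos.2 ⟨x a, hx a (mem_range.1 ha)⟩
      have h6 : ∀ c ∈ range m, ∑ T ∈ powersetCard k S,
          (if (x a ∈ T ∧ x c ∈ T) then (1 : ℝ) else 0) ≤
          (if c = a then (k : ℝ) / S.card * (S.card).choose k else 0) +
            ((k : ℝ) / S.card) ^ 2 * (S.card).choose k := by
        intro c hc
        rw [← sum_filter, sum_const, nsmul_eq_mul, mul_one]
        rw [mem_range] at ha hc
        split_ifs with hca
        · subst hca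
          have : ((powersetCard k S).filter fun T => x c ∈ T ∧ x c ∈ T) =
            ((powersetCard k S).filter fun T => x c ∈ T) := by
              ext T; simp
          rw [this, card_pc_mem_real (hx c hc)]
          have : 0 ≤ ((k : ℝ) / S.card) ^ 2 * (S.card).choose k := by positivity
          linarith
        · have hne : x a ≠ x c := fun h => hca (hinj c hc a ha h.symm)
          rw [card_pc_mem2_real (hx a ha) (hx c hc) hne, zero_add]
          apply mul_le_mul_of_nonneg_right _ (by positivity)
          have hS2 : 1 < S.card := one_lt_card.2 ⟨x a, hx a ha, x c, hx c hc, hne⟩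
          have hS2' : (1 : ℝ) < S.card := by exact_mod_cast hS2
          have hk' : (k : ℝ) ≤ S.card := by exact_mod_cast hk
          rw [div_pow, div_le_div_iff₀ (by nlinarith) (by positivity)]
          have hk0 : (0 : ℝ) ≤ k := by positivity
          have : (k - 1 : ℝ) * S.card ≤ k * (S.card - 1) := by nlinarith
          have h7 : 0 ≤ (k : ℝ) * S.card := by positivity
          nlinarith [mul_le_mul_of_nonneg_left this h7]
      refine (sum_le_sum h6).trans (le_of_eq ?_)
      rw [sum_add_distrib, sum_ite_eq' (range m) a, if_pos ha, sum_const, card_range, nsmul_eq_mul]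
    refine (sum_le_sum h5).trans (le_of_eq ?_)
    rw [sum_const, card_range, nsmul_eq_mul]
    ring
  rw [sum_sub_distrib, ← mul_sum, h3] at h2
  rw [← sum_filter, sum_const, nsmul_eq_mul, mul_one] at h2
  refine le_trans ?_ h2
  have hC : (0 : ℝ) ≤ (S.card).choose k := by positivity
  have h8 : m * m * ((k : ℝ) / S.card) ^ 2 ≤ (m * k / S.card) * (1 / 2) := by
    have e : m * m * ((k : ℝ) / S.card) ^ 2 = (m * k / S.card) * (m * k / S.card) := by ring
    rw [e]
    exact mul_le_mul_of_nonneg_left hm (by positivity)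
  have h9 := mul_le_mul_of_nonneg_right h8 hC
  have e1 : ((S.card).choose k : ℝ) * ((m : ℝ) * k / (2 * S.card)) =
      (m * k / S.card) * (1 / 2) * (S.card).choose k := by
    rw [mul_comm (2 : ℝ), ← div_div]; ring
  rw [e1]
  have e2 : (m : ℝ) * ((k : ℝ) / S.card * (S.card).choose k) =
      (m * k / S.card) * (S.card).choose k := by ring
  rw [e2] at h4 ⊢
  nlinarith [h4, h9]

end

variable {V : Type*} [Fintype V] [DecidableEq V]

/-- the mean number of the available values -/
noncomputable def Dn (d n u : ℕ) : ℝ := 1 + ((d : ℝ) - 1) * (u - 1) / (n - 1)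

lemma av_mono (u : ℕ) (f g : Finset V → V → ℝ)
    (h : ∀ U : Finset V, U.card = u → ∀ i ∈ U, f U i ≤ g U i) : av u f ≤ av u g := by
  unfold av
  apply div_le_div_of_nonneg_right _ (by positivity)
  refine sum_le_sum fun U hU => sum_le_sum fun i hi => ?_
  rw [mem_powersetCard] at hU
  exact h U hU.2 i hi

lemma av_add (u : ℕ) (f g : Finset V → V → ℝ) :
    av u (fun U i => f U i + g U i) = av u f + av u g := by
  unfold av
  simp only [sum_add_distrib, add_div]

lemma av_mul (u : ℕ) (c : ℝ) (f : Finset V → V → ℝ) :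
    av u (fun U i => c * f U i) = c * av u f := by
  unfold av
  simp only [← mul_sum, mul_div_assoc]


lemma av_pair {u : ℕ} (hu : 1 ≤ u) (hun : u ≤ Fintype.card V) (hn : 2 ≤ Fintype.card V) {d : ℕ}
    (R : V → V → Prop) [∀ i j, Decidable (R i j)]
    (hR : ∀ i, R i i) (hd : ∀ i, (univ.filter fun j => R i j).card = d) :
    av u (fun (U : Finset V) (i : V) => ((U.filter fun j => R i j).card : ℝ)) =
      Dn d (Fintype.card V) u := by
  unfold av
  have hn' : (2 : ℝ) ≤ Fintype.card V := by exact_mod_cast hn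
  have hC : (0 : ℝ) < (Fintype.card V).choose u := by exact_mod_cast Nat.choose_pos hun
  have hu' : (0 : ℝ) < u := by exact_mod_cast hu
  have h1 : ∑ U ∈ powersetCard u (univ : Finset V), ∑ i ∈ U, ((U.filter fun j => R i j).card : ℝ) =
      ∑ i : V, ∑ j ∈ univ.filter (fun j => R i j),
        (((powersetCard u (univ : Finset V)).filter fun U => i ∈ U ∧ j ∈ U).card : ℝ) := by
    have e1 : ∀ U ∈ powersetCard u (univ : Finset V),
        ∑ i ∈ U, ((U.filter fun j => R i j).card : ℝ) =
        ∑ i : V, ∑ j ∈ univ.filter (fun j => R i j), if (i ∈ U ∧ j ∈ U) then (1 : ℝ) else 0 := by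
      intro U _
      have e2 : ∀ i : V, ∑ j ∈ univ.filter (fun j => R i j),
          (if (i ∈ U ∧ j ∈ U) then (1 : ℝ) else 0) =
          if i ∈ U then ((U.filter fun j => R i j).card : ℝ) else 0 := by
        intro i
        split_ifs with hi
        · simp only [hi, true_and]
          rw [← sum_filter, sum_const, nsmul_eq_mul, mul_one]
          congr 2
          ext j; simp [and_comm]
        · simp [hi]
      simp only [e2]
      rw [← sum_filter]
      congr 1
      ext i; simp
    rw [sum_congr rfl e1, sum_comm]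
    refine sum_congr rfl fun i _ => ?_
    rw [sum_comm]
    refine sum_congr rfl fun j _ => ?_
    rw [← sum_filter, sum_const, nsmul_eq_mul, mul_one]
  rw [h1]
  have h2 : ∀ i : V, ∑ j ∈ univ.filter (fun j => R i j),
        (((powersetCard u (univ : Finset V)).filter fun U => i ∈ U ∧ j ∈ U).card : ℝ) =
      ((u : ℝ) / (Fintype.card V) +
        ((d : ℝ) - 1) * ((u : ℝ) * (u - 1) / ((Fintype.card V) * (Fintype.card V - 1)))) *
        (Fintype.card V).choose u := by
    intro i
    have hi : i ∈ univ.filter (fun j => R i j) := by simp [hR i]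
    rw [← add_sum_erase _ _ hi]
    have e1 : ((powersetCard u (univ : Finset V)).filter fun U => i ∈ U ∧ i ∈ U) =
        ((powersetCard u (univ : Finset V)).filter fun U => i ∈ U) := by
      ext U; simp
    rw [e1, card_pc_mem_real (mem_univ i), card_univ]
    have e2 : ∀ j ∈ (univ.filter (fun j => R i j)).erase i,
        (((powersetCard u (univ : Finset V)).filter fun U => i ∈ U ∧ j ∈ U).card : ℝ) =
        (u : ℝ) * (u - 1) / ((Fintype.card V) * (Fintype.card V - 1)) *
          (Fintype.card V).choose u := by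
      intro j hj
      rw [mem_erase] at hj
      rw [card_pc_mem2_real (mem_univ i) (mem_univ j) (Ne.symm hj.1), card_univ]
    rw [sum_congr rfl e2, sum_const, card_erase_of_mem hi, hd, nsmul_eq_mul]
    have hd1 : 1 ≤ d := by rw [← hd i]; exact card_pos.2 ⟨i, hi⟩
    rw [Nat.cast_sub hd1]
    push_cast
    ring
  rw [sum_congr rfl (fun i _ => h2 i), sum_const, card_univ, nsmul_eq_mul]
  unfold Dn
  have hn1 : (Fintype.card V : ℝ) - 1 ≠ 0 := by linarith
  have hn0 : (Fintype.card V : ℝ) ≠ 0 := by linarith
  field_simp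

lemma av_point_le {u : ℕ} (hu : 1 ≤ u) (hun : u ≤ Fintype.card V) (hn : 2 ≤ Fintype.card V)
    (y : V → V) :
    av u (fun (U : Finset V) (i : V) => if (y i ∈ U ∧ y i ≠ i) then (1 : ℝ) else 0) ≤
      ((u : ℝ) - 1) / (Fintype.card V - 1) := by
  unfold av
  have hn' : (2 : ℝ) ≤ Fintype.card V := by exact_mod_cast hn
  have hC : (0 : ℝ) < (Fintype.card V).choose u := by exact_mod_cast Nat.choose_pos hun
  have hu' : (1 : ℝ) ≤ u := by exact_mod_cast hu
  have h1 : ∑ U ∈ powersetCard u (univ : Finset V), ∑ i ∈ U,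
      (if (y i ∈ U ∧ y i ≠ i) then (1 : ℝ) else 0) =
      ∑ i : V, if y i ≠ i then
        (((powersetCard u (univ : Finset V)).filter fun U => i ∈ U ∧ y i ∈ U).card : ℝ) else 0 := by
    have e1 : ∀ U ∈ powersetCard u (univ : Finset V),
        ∑ i ∈ U, (if (y i ∈ U ∧ y i ≠ i) then (1 : ℝ) else 0) =
        ∑ i : V, if y i ≠ i then (if (i ∈ U ∧ y i ∈ U) then (1 : ℝ) else 0) else 0 := by
      intro U _
      rw [← sum_subset (subset_univ U)]
      · refine sum_congr rfl fun i hi => ?_
        by_cases h1 : y i ∈ U <;> by_cases h2 : y i = i <;> simp [h1, h2, hi]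
      · intro i _ hi
        simp [hi]
    rw [sum_congr rfl e1, sum_comm]
    refine sum_congr rfl fun i _ => ?_
    split_ifs with h
    · rw [← sum_filter, sum_const, nsmul_eq_mul, mul_one]
    · simp
  rw [h1]
  have h2 : ∀ i ∈ (univ : Finset V), (if y i ≠ i then
        (((powersetCard u (univ : Finset V)).filter fun U => i ∈ U ∧ y i ∈ U).card : ℝ) else 0) ≤
      (u : ℝ) * (u - 1) / ((Fintype.card V) * (Fintype.card V - 1)) *
          (Fintype.card V).choose u := by
    intro i _
    have hnn : 0 ≤ (u : ℝ) * (u - 1) / ((Fintype.card V) * (Fintype.card V - 1)) *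
          (Fintype.card V).choose u := by
      apply mul_nonneg _ hC.le
      apply div_nonneg
      · nlinarith
      · nlinarith
    split_ifs with h
    · rw [card_pc_mem2_real (mem_univ i) (mem_univ (y i)) (Ne.symm h), card_univ]
    · exact hnn
  have h3 := sum_le_sum h2
  rw [sum_const, card_univ, nsmul_eq_mul] at h3
  rw [div_le_iff₀ (by positivity)]
  refine h3.trans (le_of_eq ?_)
  have hn1 : (Fintype.card V : ℝ) - 1 ≠ 0 := by linarith
  have hn0 : (Fintype.card V : ℝ) ≠ 0 := by linarith
  field_simp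

end Pool.Agent.Helper49.CF
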