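import Mathlib

/-!
# Cycle-factors of regular digraphs

A digraph with the vertex set `V` (loops are allowed, multiple arcs are not) is given by its
adjacency relation `G : V → V → Prop`.
-/

set_option linter.unusedSectionVars false

open Finset

namespace Pool.Agent.Helper49.CF

variable {V : Type*} [Fintype V] [DecidableEq V]

open Classical in
/-- `G` is `d`-regular: all outdegrees and all indegrees are `d`. -/
def Reg (G : V → V → Prop) (d : ℕ) : Prop :=
  (∀ v, (univ.filter fun w => G v w).card = d) ∧ (∀ w, (univ.filter fun v => G v w).card = d)

open Classical in
/-- the set of the cycle-factors of `G`: the permutations `σ` such that all `(v, σ v)` are arcs -/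
noncomputable def cf (G : V → V → Prop) : Finset (Equiv.Perm V) :=
  univ.filter fun σ => ∀ v, G v (σ v)

/-- the number of cycles of a permutation (fixed points are counted) -/
noncomputable def numCycles (σ : Equiv.Perm V) : ℕ :=
  Nat.card (Quotient (Equiv.Perm.SameCycle.setoid σ))

/-- the mean number of cycles of a uniformly random cycle-factor of `G` -/
noncomputable def Ec (G : V → V → Prop) : ℝ :=
  (∑ σ ∈ cf G, (numCycles σ : ℝ)) / ((cf G).card : ℝ)

/-- the values of `Ec` at the `d`-regular digraphs with `n` vertices -/
def vals (d n : ℕ) : Set ℝ := {x | ∃ G : Fin n → Fin n → Prop, Reg G d ∧ Ec G = x}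

/-- the largest mean number of cycles for the `d`-regular digraphs with `n` vertices -/
noncomputable def M (d n : ℕ) : ℝ := sSup (vals d n)

end Pool.Agent.Helper49.CF
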