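import Mathlib

/-!
# Sums of reciprocals
-/

open Finset

namespace Pool.Agent.Helper49.CF

lemma W_zero {k n : ℕ} (h : n < k) :
    ∑ u ∈ range n, (if k ≤ u + 1 then (k : ℝ) / ((u + 1 : ℕ) : ℝ) else 0) = 0 := by
  apply sum_eq_zero
  intro u hu
  rw [mem_range] at hu
  rw [if_neg (by omega)]

lemma W_le_aux {k : ℕ} (hk : 1 ≤ k) {n : ℕ} (h : k ≤ n) :
    ∑ u ∈ range n, (if k ≤ u + 1 then (k : ℝ) / ((u + 1 : ℕ) : ℝ) else 0) ≤
      1 + k * Real.log ((n : ℝ) / k) := by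
  have hk' : (0 : ℝ) < k := by exact_mod_cast hk
  induction n, h using Nat.le_induction with
  | base =>
    obtain ⟨m, rfl⟩ : ∃ m, k = m + 1 := ⟨k - 1, by omega⟩
    rw [sum_range_succ, W_zero (by omega), if_pos le_rfl, div_self hk'.ne', Real.log_one]
    simp
  | succ n h ih =>
    rw [sum_range_succ, if_pos (by omega)]
    have hn : (0 : ℝ) < n := lt_of_lt_of_le hk' (by exact_mod_cast h)
    have h1 : 1 / ((n : ℝ) + 1) ≤ Real.log (((n + 1 : ℕ) : ℝ) / k) - Real.log ((n : ℝ) / k) := by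
      have h2 := Real.one_sub_inv_le_log_of_pos (show 0 < ((n : ℝ) + 1) / n by positivity)
      rw [Real.log_div (by positivity) (by positivity)] at h2
      rw [Real.log_div (by positivity) (by positivity), Real.log_div (by positivity) (by positivity)]
      have h3 : 1 - (((n : ℝ) + 1) / n)⁻¹ = 1 / (n + 1) := by
        field_simp
        ring
      push_cast
      linarith
    have h2 := mul_le_mul_of_nonneg_left h1 hk'.le
    have h3 : (k : ℝ) * (1 / (n + 1)) = k / ((n + 1 : ℕ) : ℝ) := by push_cast; ring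
    rw [h3] at h2
    linarith

lemma W_le {k : ℕ} (hk : 1 ≤ k) {n : ℕ} {x : ℝ} (hx : 1 ≤ x) (h : (n : ℝ) ≤ k * x) :
    ∑ u ∈ range n, (if k ≤ u + 1 then (k : ℝ) / ((u + 1 : ℕ) : ℝ) else 0) ≤
      1 + k * Real.log x := by
  have hk' : (0 : ℝ) < k := by exact_mod_cast hk
  rcases lt_or_ge n k with h1 | h1
  · rw [W_zero h1]
    have := Real.log_nonneg hx
    positivity
  · refine (W_le_aux hk h1).trans ?_
    have hn : (0 : ℝ) < n := lt_of_lt_of_le hk' (by exact_mod_cast h1)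
    have h2 : Real.log ((n : ℝ) / k) ≤ Real.log x := by
      apply Real.log_le_log (by positivity)
      rw [div_le_iff₀ hk']
      linarith
    have := mul_le_mul_of_nonneg_left h2 hk'.le
    linarith

lemma W_low {k : ℕ} (hk : 1 ≤ k) (n : ℕ) {x : ℝ} (hx : 1 ≤ x) :
    ∑ u ∈ range n, (if (k ≤ u + 1 ∧ ((u + 1 : ℕ) : ℝ) < k * x) then
      (k : ℝ) / ((u + 1 : ℕ) : ℝ) else 0) ≤ 1 + k * Real.log x := by
  have hk' : (0 : ℝ) < k := by exact_mod_cast hk
  have h0 : (0 : ℝ) ≤ k * x := by positivity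
  refine le_trans ?_ (W_le hk (n := ⌊(k : ℝ) * x⌋₊) hx (Nat.floor_le h0))
  have h1 : ∑ u ∈ range n, (if (k ≤ u + 1 ∧ ((u + 1 : ℕ) : ℝ) < k * x) then
      (k : ℝ) / ((u + 1 : ℕ) : ℝ) else 0) =
      ∑ u ∈ (range n).filter (fun u => k ≤ u + 1 ∧ ((u + 1 : ℕ) : ℝ) < k * x),
        (k : ℝ) / ((u + 1 : ℕ) : ℝ) := by
    rw [sum_filter]
  have h2 : ∑ u ∈ range ⌊(k : ℝ) * x⌋₊, (if k ≤ u + 1 then (k : ℝ) / ((u + 1 : ℕ) : ℝ) else 0) =
      ∑ u ∈ (range ⌊(k : ℝ) * x⌋₊).filter (fun u => k ≤ u + 1),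
        (k : ℝ) / ((u + 1 : ℕ) : ℝ) := by
    rw [sum_filter]
  rw [h1, h2]
  apply sum_le_sum_of_subset_of_nonneg
  · intro u hu
    rw [mem_filter, mem_range] at hu ⊢
    refine ⟨?_, hu.2.1⟩
    have := Nat.le_floor hu.2.2.le
    omega
  · intro u _ _
    positivity

lemma W_high {k n : ℕ} {δ : ℝ} (hδ : 0 < δ) (hn : 0 < n) :
    ∑ u ∈ range n, (if δ * n < ((u + 1 : ℕ) : ℝ) then (k : ℝ) / ((u + 1 : ℕ) : ℝ) else 0) ≤
      k / δ := by
  have hn' : (0 : ℝ) < n := by exact_mod_cast hn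
  have h : ∀ u ∈ range n, (if δ * n < ((u + 1 : ℕ) : ℝ) then (k : ℝ) / ((u + 1 : ℕ) : ℝ) else 0) ≤
      k / (δ * n) := by
    intro u _
    split_ifs with h
    · exact div_le_div_of_nonneg_left (by positivity) (by positivity) h.le
    · positivity
  refine (sum_le_sum h).trans (le_of_eq ?_)
  rw [sum_const, card_range, nsmul_eq_mul]
  field_simp

end Pool.Agent.Helper49.CF
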