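import Pool.Agent.Helper49.CF.Count

/-!
# Averages over cycle-factors, subsets and points; the chain rules
-/

set_option linter.unusedSectionVars false

open Finset

namespace Pool.Agent.Helper49.CF

variable {V : Type*} [Fintype V] [DecidableEq V]

/-- the average over the cycle-factors `σ`, the sets `U` with `u` elements and `i ∈ U` -/
noncomputable def Ex (G : V → V → Prop) (u : ℕ) (f : Equiv.Perm V → Finset V → V → ℝ) : ℝ :=
  (∑ σ ∈ cf G, av u (f σ)) / ((cf G).card : ℝ)

lemma Ex_eq (G : V → V → Prop) (u : ℕ) (f : Equiv.Perm V → Finset V → V → ℝ) :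
    Ex G u f = av u (fun U i => (∑ σ ∈ cf G, f σ U i) / ((cf G).card : ℝ)) := by
  unfold Ex av
  rw [← sum_div, div_right_comm]
  congr 1
  rw [sum_comm, sum_div]
  refine sum_congr rfl fun U _ => ?_
  rw [sum_comm, sum_div]

lemma Ex_mono {G : V → V → Prop} {u : ℕ} {f g : Equiv.Perm V → Finset V → V → ℝ}
    (h : ∀ σ ∈ cf G, ∀ U : Finset V, U.card = u → ∀ i ∈ U, f σ U i ≤ g σ U i) :
    Ex G u f ≤ Ex G u g := by
  unfold Ex
  apply div_le_div_of_nonneg_right _ (by positivity)
  exact sum_le_sum fun σ hσ => av_mono u _ _ (h σ hσ)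

lemma Ex_congr {G : V → V → Prop} {u : ℕ} {f g : Equiv.Perm V → Finset V → V → ℝ}
    (h : ∀ σ ∈ cf G, ∀ U : Finset V, U.card = u → ∀ i ∈ U, f σ U i = g σ U i) :
    Ex G u f = Ex G u g :=
  le_antisymm (Ex_mono fun σ hσ U hU i hi => (h σ hσ U hU i hi).le)
    (Ex_mono fun σ hσ U hU i hi => (h σ hσ U hU i hi).ge)

lemma Ex_add (G : V → V → Prop) (u : ℕ) (f g : Equiv.Perm V → Finset V → V → ℝ) :
    Ex G u (fun σ U i => f σ U i + g σ U i) = Ex G u f + Ex G u g := by
  unfold Ex
  rw [← add_div, ← sum_add_distrib]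
  congr 1
  exact sum_congr rfl fun σ _ => av_add u _ _

lemma Ex_mul (G : V → V → Prop) (u : ℕ) (c : ℝ) (f : Equiv.Perm V → Finset V → V → ℝ) :
    Ex G u (fun σ U i => c * f σ U i) = c * Ex G u f := by
  unfold Ex
  rw [← mul_div_assoc, mul_sum]
  congr 1
  exact sum_congr rfl fun σ _ => av_mul u _ _

lemma av_one {u : ℕ} (hu : 1 ≤ u) (hun : u ≤ Fintype.card V) :
    av (V := V) u (fun _ _ => 1) = 1 := by
  unfold av
  have h : ∑ U ∈ powersetCard u (univ : Finset V), ∑ i ∈ U, (1 : ℝ) =
      u * (Fintype.card V).choose u := by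
    have : ∀ U ∈ powersetCard u (univ : Finset V), ∑ i ∈ U, (1 : ℝ) = u := by
      intro U hU
      rw [mem_powersetCard] at hU
      rw [sum_const, hU.2, nsmul_eq_mul, mul_one]
    rw [sum_congr rfl this, sum_const, card_powersetCard, card_univ, nsmul_eq_mul]
    ring
  rw [h]
  have hC : (0 : ℝ) < (Fintype.card V).choose u := by exact_mod_cast Nat.choose_pos hun
  have hu' : (0 : ℝ) < u := by exact_mod_cast hu
  exact div_self (by positivity)

lemma Ex_const {G : V → V → Prop} (hG : (cf G).Nonempty) {u : ℕ} (hu : 1 ≤ u)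
    (hun : u ≤ Fintype.card V) (c : ℝ) : Ex G u (fun _ _ _ => c) = c := by
  have h := Ex_mul G u c (fun _ _ _ => 1)
  have h1 : Ex G u (fun _ _ _ => 1) = 1 := by
    unfold Ex
    have h0 : ∀ σ ∈ cf G, av (V := V) u ((fun _ _ _ => (1 : ℝ)) σ) = 1 := fun σ _ => av_one hu hun
    rw [sum_congr rfl h0, sum_const, nsmul_eq_mul, mul_one, div_self]
    have := card_pos.2 hG
    positivity
  rw [h1] at h
  simpa using h

/-- the tower property for the averages -/
lemma Ex_tower {G : V → V → Prop} (u : ℕ) (f : Equiv.Perm V → Finset V → V → V → ℝ)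
    (hf : ∀ U : Finset V, ∀ i ∈ U, ∀ σ ∈ cf G, ∀ τ ∈ cf G, (∀ j ∉ U, τ j = σ j) →
      f τ U i = f σ U i) :
    Ex G u (fun σ U i => f σ U i (σ i)) = Ex G u (fun σ U i => ∑ c, b G U σ i c * f σ U i c) := by
  rw [Ex_eq, Ex_eq]
  unfold av
  congr 1
  refine sum_congr rfl fun U _ => sum_congr rfl fun i hi => ?_
  change (∑ σ ∈ cf G, f σ U i (σ i)) / ((cf G).card : ℝ) =
    (∑ σ ∈ cf G, ∑ c, b G U σ i c * f σ U i c) / ((cf G).card : ℝ)
  congr 1
  exact tower U i (fun σ c => f σ U i c) (fun σ hσ τ hτ h => hf U i hi σ hσ τ hτ h)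

/-- the probability that the path is closed, at level `u` -/
noncomputable def pr (G : V → V → Prop) (u : ℕ) : ℝ :=
  Ex G u (fun σ U i => if σ i = st σ U i then 1 else 0)

/-- the conditional entropy at level `u` -/
noncomputable def en (G : V → V → Prop) (u : ℕ) : ℝ :=
  Ex G u (fun σ U i => - Real.log (b G U σ i (σ i)))

lemma numCycles_le (σ : Equiv.Perm V) :
    (numCycles σ : ℝ) ≤
      ∑ u ∈ range (Fintype.card V), av (u + 1) (fun U i => if σ i = st σ U i then 1 else 0) := by
  classical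
  let F : Finset V → ℝ := fun U =>
    ((U.image (Quotient.mk (Equiv.Perm.SameCycle.setoid σ))).card : ℝ)
  have h1 : F univ - F ∅ = numCycles σ := by
    simp only [F, image_empty, card_empty, Nat.cast_zero, sub_zero, numCycles]
    rw [Nat.card_eq_fintype_card, ← card_univ, image_univ_of_surjective]
    exact Quotient.mk_surjective
  rw [← h1, ← tel F]
  refine sum_le_sum fun u _ => av_mono _ _ _ fun U _ i hi => ?_
  simp only [F]
  have h2 : U.image (Quotient.mk (Equiv.Perm.SameCycle.setoid σ)) =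
      insert (Quotient.mk (Equiv.Perm.SameCycle.setoid σ) i)
        ((U.erase i).image (Quotient.mk (Equiv.Perm.SameCycle.setoid σ))) := by
    rw [← image_insert, insert_erase hi]
  by_cases h3 : Quotient.mk (Equiv.Perm.SameCycle.setoid σ) i ∈
      (U.erase i).image (Quotient.mk (Equiv.Perm.SameCycle.setoid σ))
  · rw [h2, insert_eq_of_mem h3, sub_self]
    split_ifs <;> norm_num
  · have h4 : σ i = st σ U i := by
      apply closing σ hi
      intro y hy hs
      by_contra hne
      apply h3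
      rw [mem_image]
      exact ⟨y, mem_erase.2 ⟨hne, hy⟩, Quotient.sound hs.symm⟩
    rw [if_pos h4, h2, card_insert_of_notMem h3]
    push_cast; linarith

lemma Ec_le (G : V → V → Prop) : Ec G ≤ ∑ u ∈ range (Fintype.card V), pr G (u + 1) := by
  unfold Ec pr Ex
  rw [← sum_div, sum_comm]
  apply div_le_div_of_nonneg_right _ (by positivity)
  exact sum_le_sum fun σ _ => numCycles_le σ

lemma cls_erase {G : V → V → Prop} {U : Finset V} {σ : Equiv.Perm V} {i : V} (hi : i ∈ U) :
    ((cls G U σ).filter fun τ => τ i = σ i) = cls G (U.erase i) σ := by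
  ext τ
  simp only [mem_filter, mem_cls, mem_erase, ne_eq, not_and_or, not_not]
  constructor
  · rintro ⟨⟨h1, h2⟩, h3⟩
    refine ⟨h1, ?_⟩
    rintro j (rfl | hj)
    · exact h3
    · exact h2 j hj
  · rintro ⟨h1, h2⟩
    exact ⟨⟨h1, fun j hj => h2 j (Or.inr hj)⟩, h2 i (Or.inl rfl)⟩

lemma b_self_pos {G : V → V → Prop} {U : Finset V} {σ : Equiv.Perm V} (hσ : σ ∈ cf G) (i : V) :
    0 < b G U σ i (σ i) := by
  unfold b
  have h1 : 0 < ((cls G U σ).filter fun τ => τ i = σ i).card :=
    card_pos.2 ⟨σ, mem_filter.2 ⟨self_mem_cls hσ, rfl⟩⟩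
  have h2 : 0 < (cls G U σ).card := card_pos.2 ⟨σ, self_mem_cls hσ⟩
  positivity

/-- the chain rule for the entropy -/
lemma sum_en {G : V → V → Prop} (hG : (cf G).Nonempty) :
    ∑ u ∈ range (Fintype.card V), en G (u + 1) = Real.log (cf G).card := by
  let F : Finset V → ℝ := fun U => (∑ σ ∈ cf G, Real.log (cls G U σ).card) / ((cf G).card : ℝ)
  have hc : (0 : ℝ) < (cf G).card := by exact_mod_cast card_pos.2 hG
  have h1 : F univ = Real.log (cf G).card := by
    have : ∀ σ ∈ cf G, Real.log ((cls G univ σ).card : ℝ) = Real.log (cf G).card := by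
      intro σ _
      congr 3
      ext τ; simp [mem_cls]
    simp only [F]
    rw [sum_congr rfl this, sum_const, nsmul_eq_mul]
    field_simp
  have h2 : F ∅ = 0 := by
    have : ∀ σ ∈ cf G, Real.log ((cls G ∅ σ).card : ℝ) = 0 := by
      intro σ hσ
      have : cls G ∅ σ = {σ} := by
        ext τ
        simp only [mem_cls, notMem_empty, not_false_eq_true, forall_const, mem_singleton]
        constructor
        · rintro ⟨_, h⟩; exact Equiv.ext h
        · rintro rfl; exact ⟨hσ, fun _ => rfl⟩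
      rw [this]; simp
    simp only [F]
    rw [sum_congr rfl this]; simp
  have h3 := tel F
  rw [h1, h2, sub_zero] at h3
  rw [← h3]
  refine sum_congr rfl fun u _ => ?_
  unfold en
  rw [Ex_eq]
  unfold av
  congr 1
  refine sum_congr rfl fun U _ => sum_congr rfl fun i hi => ?_
  simp only [F]
  rw [← sub_div, ← sum_sub_distrib]
  congr 1
  refine sum_congr rfl fun σ hσ => ?_
  unfold b
  rw [cls_erase hi, Real.log_div]
  · ring
  · have : 0 < (cls G (U.erase i) σ).card := card_pos.2 ⟨σ, self_mem_cls hσ⟩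
    positivity
  · have : 0 < (cls G U σ).card := card_pos.2 ⟨σ, self_mem_cls hσ⟩
    positivity

end Pool.Agent.Helper49.CF
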