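import Pool.Agent.Helper49.CF.Level

/-!
# Disjoint unions of complete digraphs with loops
-/

set_option linter.unusedSectionVars false

open Finset

namespace Pool.Agent.Helper49.CF

variable {V : Type*} [Fintype V] [DecidableEq V] {ι : Type*} [Fintype ι] [DecidableEq ι]

/-- the disjoint union of complete digraphs with loops -/
def blk (f : V → ι) : V → V → Prop := fun x y => f x = f y

lemma f_app {f : V → ι} {σ : Equiv.Perm V} (hσ : σ ∈ cf (blk f)) (x : V) : f (σ x) = f x :=
  (mem_cf.1 hσ x).symm

lemma f_symm {f : V → ι} {σ : Equiv.Perm V} (hσ : σ ∈ cf (blk f)) (x : V) :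
    f (σ.symm x) = f x := by
  have := f_app hσ (σ.symm x)
  rw [Equiv.apply_symm_apply] at this
  exact this.symm

lemma f_iter {f : V → ι} {σ : Equiv.Perm V} (hσ : σ ∈ cf (blk f)) (x : V) (t : ℕ) :
    f (σ.symm^[t] x) = f x := by
  induction t with
  | zero => rfl
  | succ t ih => rw [Function.iterate_succ_apply', f_symm hσ, ih]

lemma b_swap {f : V → ι} {U : Finset V} {σ : Equiv.Perm V} {i c c' : V}
    (hc : c ∈ avl (blk f) U σ i) (hc' : c' ∈ avl (blk f) U σ i) :
    b (blk f) U σ i c = b (blk f) U σ i c' := by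
  rw [mem_avl] at hc hc'
  have hff : f c = f c' := hc.2.symm.trans hc'.2
  have key : ∀ c c' : V, σ⁻¹ c ∈ U → σ⁻¹ c' ∈ U → f c = f c' → ∀ τ ∈ cls (blk f) U σ,
      Equiv.swap c c' * τ ∈ cls (blk f) U σ := by
    intro c c' h1 h2 h3 τ hτ
    rw [mem_cls] at hτ ⊢
    have hsw : ∀ x, f (Equiv.swap c c' x) = f x := by
      intro x
      by_cases hx : x = c
      · rw [hx, Equiv.swap_apply_left]; exact h3.symm
      · by_cases hx' : x = c'
        · rw [hx', Equiv.swap_apply_right]; exact h3
        · rw [Equiv.swap_apply_of_ne_of_ne hx hx']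
    refine ⟨mem_cf.2 fun v => ?_, fun j hj => ?_⟩
    · have h4 : f v = f (τ v) := mem_cf.1 hτ.1 v
      change f v = f (Equiv.swap c c' (τ v))
      rw [hsw]; exact h4
    · rw [Equiv.Perm.mul_apply, hτ.2 j hj, Equiv.swap_apply_of_ne_of_ne]
      · rintro rfl
        rw [inv_app] at h1
        exact hj h1
      · rintro rfl
        rw [inv_app] at h2
        exact hj h2
  have hk := key c c' hc.1 hc'.1 hff
  unfold b
  congr 2
  refine card_nbij' (fun τ => Equiv.swap c c' * τ) (fun τ => Equiv.swap c c' * τ) ?_ ?_ ?_ ?_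
  · intro τ hτ
    simp only [coe_filter, Set.mem_ofPred_eq] at hτ ⊢
    exact ⟨hk τ hτ.1, by rw [Equiv.Perm.mul_apply, hτ.2, Equiv.swap_apply_left]⟩
  · intro τ hτ
    simp only [coe_filter, Set.mem_ofPred_eq] at hτ ⊢
    exact ⟨hk τ hτ.1, by rw [Equiv.Perm.mul_apply, hτ.2, Equiv.swap_apply_right]⟩
  · intro τ _
    simp [← mul_assoc]
  · intro τ _
    simp [← mul_assoc]

lemma card_avl_blk {f : V → ι} {U : Finset V} {σ : Equiv.Perm V} (hσ : σ ∈ cf (blk f)) (i : V) :
    (avl (blk f) U σ i).card = (U.filter fun j => f j = f i).card := by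
  refine (card_nbij' (fun j => σ j) (fun c => σ⁻¹ c) ?_ ?_ ?_ ?_).symm
  · intro j hj
    simp only [coe_filter, Set.mem_ofPred_eq] at hj
    rw [mem_coe, mem_avl, inv_app]
    refine ⟨hj.1, ?_⟩
    change f i = f (σ j)
    rw [f_app hσ, hj.2]
  · intro c hc
    rw [mem_coe, mem_avl] at hc
    simp only [coe_filter, Set.mem_ofPred_eq]
    refine ⟨hc.1, ?_⟩
    have h1 := f_app hσ (σ⁻¹ c)
    rw [app_inv] at h1
    have h2 : f i = f c := hc.2
    rw [← h1, ← h2]
  · intro j _; simp
  · intro c _; simp

lemma b_blk {f : V → ι} {U : Finset V} {σ : Equiv.Perm V} (hσ : σ ∈ cf (blk f)) {i c : V}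
    (hi : i ∈ U) (hc : c ∈ avl (blk f) U σ i) :
    b (blk f) U σ i c = 1 / ((U.filter fun j => f j = f i).card : ℝ) := by
  have h := sum_b_avl hσ hi
  rw [sum_congr rfl (fun c' hc' => b_swap hc' hc), sum_const, nsmul_eq_mul, card_avl_blk hσ] at h
  have h0 : ((U.filter fun j => f j = f i).card : ℝ) ≠ 0 := by
    intro h1
    rw [h1, zero_mul] at h
    exact zero_ne_one h
  field_simp
  linarith

lemma st_mem_avl {f : V → ι} {U : Finset V} {σ : Equiv.Perm V} (hσ : σ ∈ cf (blk f)) {i : V}
    (hi : i ∈ U) : st σ U i ∈ avl (blk f) U σ i := by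
  rw [mem_avl]
  refine ⟨symm_st_mem σ hi, ?_⟩
  exact (f_iter hσ i _).symm

/-- the converse of `closing` -/
lemma closing_conv (σ : Equiv.Perm V) {U : Finset V} {i : V} (h : σ i = st σ U i) :
    ∀ y ∈ U, σ.SameCycle i y → y = i := by
  intro y hy hs
  have h1 : σ.symm^[tm σ U i + 1] i = i := by
    rw [Function.iterate_succ_apply']
    change σ.symm (st σ U i) = i
    rw [← h, Equiv.symm_apply_apply]
  obtain ⟨n, hn⟩ := (Equiv.Perm.sameCycle_inv.2 hs).exists_nat_pow_eq
  have hn' : σ.symm^[n] i = y := by
    rw [← hn]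
    have := Equiv.Perm.iterate_eq_pow σ⁻¹ n
    exact congrFun this i
  have hp : Function.IsPeriodicPt σ.symm (tm σ U i + 1) i := h1
  rw [← hp.iterate_mod_apply n] at hn'
  by_contra hne
  rcases Nat.eq_zero_or_pos (n % (tm σ U i + 1)) with h0 | h0
  · rw [h0] at hn'
    exact hne hn'.symm
  · have h2 : n % (tm σ U i + 1) < tm σ U i + 1 := Nat.mod_lt _ (by omega)
    obtain ⟨s, hs⟩ : ∃ s, n % (tm σ U i + 1) = s + 1 := ⟨n % (tm σ U i + 1) - 1, by omega⟩
    rw [hs] at hn' h2
    have h3 := tm_min σ (show s < tm σ U i by omega)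
    rw [hn'] at h3
    exact h3 hy

/-- the number of cycles that meet `U` -/
noncomputable def met (σ : Equiv.Perm V) (U : Finset V) : ℕ := by
  classical exact (U.image (Quotient.mk (Equiv.Perm.SameCycle.setoid σ))).card

lemma met_univ (σ : Equiv.Perm V) : met σ univ = numCycles σ := by
  classical
  unfold met numCycles
  rw [Nat.card_eq_fintype_card, ← card_univ, image_univ_of_surjective]
  exact Quotient.mk_surjective

lemma met_insert (σ : Equiv.Perm V) {U : Finset V} {i : V} (hi : i ∉ U) :
    (met σ (insert i U) : ℝ) = met σ U + if σ i = st σ (insert i U) i then 1 else 0 := by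
  classical
  unfold met
  rw [image_insert]
  by_cases h3 : Quotient.mk (Equiv.Perm.SameCycle.setoid σ) i ∈
      U.image (Quotient.mk (Equiv.Perm.SameCycle.setoid σ))
  · rw [insert_eq_of_mem h3]
    have h4 : ¬ σ i = st σ (insert i U) i := by
      intro h
      rw [mem_image] at h3
      obtain ⟨y, hy, hq⟩ := h3
      have h5 : σ.SameCycle y i := Quotient.exact hq
      have h6 := closing_conv σ h y (mem_insert_of_mem hy) h5.symm
      rw [h6] at hy
      exact hi hy
    rw [if_neg h4, add_zero]
  · have h4 : σ i = st σ (insert i U) i := by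
      apply closing σ (mem_insert_self _ _)
      intro y hy hs
      by_contra hne
      apply h3
      rw [mem_image]
      refine ⟨y, ?_, Quotient.sound hs.symm⟩
      rw [mem_insert] at hy
      exact hy.resolve_left hne
    rw [if_pos h4, card_insert_of_notMem h3]
    push_cast; ring

lemma sum_met (f : V → ι) (U : Finset V) :
    ∑ σ ∈ cf (blk f), (met σ U : ℝ) =
      ((cf (blk f)).card : ℝ) * ∑ a : ι, (harmonic (U.filter fun j => f j = a).card : ℝ) := by
  induction U using Finset.induction_on with
  | empty =>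
    have : ∀ σ : Equiv.Perm V, met σ ∅ = 0 := by
      intro σ; simp [met]
    simp [this]
  | insert i U hi ih =>
    simp only [met_insert _ hi, sum_add_distrib]
    rw [ih]
    have h1 : ∑ σ ∈ cf (blk f), (if σ i = st σ (insert i U) i then (1 : ℝ) else 0) =
        ((cf (blk f)).card : ℝ) *
          (1 / (((insert i U).filter fun j => f j = f i).card : ℝ)) := by
      rw [tower (insert i U) i (fun σ c => if c = st σ (insert i U) i then (1 : ℝ) else 0)]
      · rw [← nsmul_eq_mul, ← sum_const]
        refine sum_congr rfl fun σ hσ => ?_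
        have e : ∑ c, b (blk f) (insert i U) σ i c *
            (if c = st σ (insert i U) i then (1 : ℝ) else 0) =
            b (blk f) (insert i U) σ i (st σ (insert i U) i) := by simp
        rw [e, b_blk hσ (mem_insert_self _ _) (st_mem_avl hσ (mem_insert_self _ _))]
      · intro σ _ τ _ h
        funext c
        rw [st_congr (mem_insert_self _ _) h]
    rw [h1, ← mul_add]
    congr 1
    have h2 : ∀ a : ι, (harmonic ((insert i U).filter fun j => f j = a).card : ℝ) =
        (harmonic (U.filter fun j => f j = a).card : ℝ) +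
          if a = f i then (1 / (((insert i U).filter fun j => f j = f i).card : ℝ)) else 0 := by
      intro a
      rw [filter_insert]
      by_cases h : f i = a
      · subst h
        have h3 : i ∉ U.filter fun j => f j = f i := fun h => hi (mem_filter.1 h).1
        rw [if_pos rfl, if_pos rfl, filter_insert, if_pos rfl, card_insert_of_notMem h3,
          harmonic_succ]
        push_cast
        ring
      · rw [if_neg h, if_neg (fun h' => h h'.symm), add_zero]
    simp only [h2, sum_add_distrib]
    rw [sum_ite_eq' univ (f i)]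
    simp

theorem Ec_blk {f : V → ι} {d : ℕ} (hf : ∀ a, (univ.filter fun j => f j = a).card = d) :
    Ec (blk f) = Fintype.card ι * (harmonic d : ℝ) := by
  have h := sum_met f univ
  simp only [met_univ] at h
  unfold Ec
  rw [h]
  have h1 : ∀ a : ι, (harmonic (univ.filter fun j => f j = a).card : ℝ) = (harmonic d : ℝ) := by
    intro a; rw [hf a]
  simp only [h1]
  rw [sum_const, card_univ, nsmul_eq_mul]
  have h2 : (cf (blk f)).Nonempty := ⟨1, mem_cf.2 fun v => rfl⟩
  have h3 : ((cf (blk f)).card : ℝ) ≠ 0 := by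
    have := card_pos.2 h2
    positivity
  field_simp

end Pool.Agent.Helper49.CF
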