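import Pool.Agent.Helper49.CF.SumSl
import Pool.Agent.Helper49.CF.Harm

/-!
# The levels in the middle
-/

set_option linter.unusedSectionVars false

open Finset

namespace Pool.Agent.Helper49.CF

variable {V : Type*} [Fintype V] [DecidableEq V]

/-- pigeonhole for the slacks -/
lemma exists_small {G : V → V → Prop} {k d : ℕ} (hd : 2 ≤ d) (hG : Reg G d)
    (hV : Fintype.card V = k * d) (hn : 2 ≤ k * d) {s : ℝ}
    (hs : ∑ u ∈ range (k * d), sl G d (u + 1) ≤ s) (hs0 : 0 ≤ s) {a : ℝ} (ha : 4 ≤ a)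
    (ha2 : a ≤ k * d) :
    ∃ t : ℕ, 1 ≤ t ∧ a / 2 < t ∧ (t : ℝ) ≤ a ∧ sl G d t ≤ 4 * s / a := by
  have hne := cf_nonempty hd hG
  have ha0 : 0 < a := by linarith
  set I := Ioc ⌊a / 2⌋₊ ⌊a⌋₊ with hI
  have hmem : ∀ t ∈ I, 1 ≤ t ∧ a / 2 < t ∧ (t : ℝ) ≤ a := by
    intro t ht
    rw [hI, mem_Ioc, Nat.floor_lt (by positivity), Nat.le_floor_iff (by positivity)] at ht
    refine ⟨?_, ht⟩
    have : (0 : ℝ) < t := by linarith [ht.1]
    exact_mod_cast this
  have hcard : a / 4 ≤ (I.card : ℝ) := by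
    rw [hI, Nat.card_Ioc]
    have h1 : (⌊a / 2⌋₊ : ℝ) ≤ a / 2 := Nat.floor_le (by positivity)
    have h2 : a < (⌊a⌋₊ : ℝ) + 1 := Nat.lt_floor_add_one a
    have h3 : ⌊a / 2⌋₊ ≤ ⌊a⌋₊ := Nat.floor_le_floor (by linarith)
    rw [Nat.cast_sub h3]
    linarith
  have hIne : I.Nonempty := by
    rw [← card_pos]
    have : (0 : ℝ) < I.card := by linarith
    exact_mod_cast this
  have hsum : ∑ t ∈ I, sl G d t ≤ s := by
    refine le_trans ?_ hs
    have h1 : ∑ u ∈ range (k * d), sl G d (u + 1) = ∑ t ∈ Ioc 0 (k * d), sl G d t := by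
      rw [range_eq_Ico, sum_Ico_add' (fun t => sl G d t) 0 (k * d) 1]
      congr 1
    rw [h1]
    apply sum_le_sum_of_subset_of_nonneg
    · intro t ht
      have h2 := hmem t ht
      rw [mem_Ioc]
      refine ⟨h2.1, ?_⟩
      have : (t : ℝ) ≤ (k * d : ℕ) := by push_cast; linarith [h2.2.2]
      exact_mod_cast this
    · intro t ht _
      rw [mem_Ioc] at ht
      exact sl_nonneg hG hne (by omega) ht.1 (by rw [hV]; exact ht.2) (by rw [hV]; exact hn)
  have h2 : ∑ t ∈ I, sl G d t ≤ ∑ _t ∈ I, 4 * s / a := by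
    rw [sum_const, nsmul_eq_mul]
    refine hsum.trans ?_
    have h3 : 0 ≤ 4 * s / a := by positivity
    have h4 := mul_le_mul_of_nonneg_right hcard h3
    refine le_trans (le_of_eq ?_) h4
    field_simp
  obtain ⟨t, ht, h3⟩ := exists_le_of_sum_le hIne h2
  obtain ⟨h4, h5, h6⟩ := hmem t ht
  exact ⟨t, h4, h5, h6, h3⟩

/-- the bound for `beta` -/
noncomputable def Bd (K K0 δ θ D0 s : ℝ) : ℝ :=
  K / D0 + K0 / (D0 * (Real.log K - 1)) + 6 * δ + 16 * K * K0 / (δ ^ 3 * phi θ * D0) +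
    8 * s / (δ ^ 2 * D0 * (Real.log K - 1))

lemma beta_mid {G : V → V → Prop} {k d u : ℕ} (hk : 1 ≤ k) (hd : 2 ≤ d) (hG : Reg G d)
    (hV : Fintype.card V = k * d) {K K0 δ θ D0 s : ℝ} (hK0 : 0 < K) (hK : 1 < Real.log K)
    (hK00 : 0 < K0) (hθ : 1 < θ) (hδ : 0 < δ) (hδ4 : δ ≤ 1 / 4) (hs0 : 0 ≤ s)
    (hs : ∑ u ∈ range (k * d), sl G d (u + 1) ≤ k * s) (hD0 : 1 ≤ D0) (hD04 : 4 ≤ δ * D0)
    (hu1 : (k : ℝ) * D0 ≤ u) (hu2 : (u : ℝ) ≤ δ * (k * d)) (hsl : sl G d u ≤ K0 * k / u) :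
    beta G d u θ ≤ Bd K K0 δ θ D0 s := by
  have hne := cf_nonempty hd hG
  have hk' : (1 : ℝ) ≤ k := by exact_mod_cast hk
  have hd' : (2 : ℝ) ≤ d := by exact_mod_cast hd
  have hkd : (2 : ℝ) ≤ (k : ℝ) * d := by nlinarith
  have hn : 2 ≤ k * d := by exact_mod_cast hkd
  have hu0 : (1 : ℝ) ≤ u := by nlinarith
  have hu : 1 ≤ u := by exact_mod_cast hu0
  have hku : (k : ℝ) ≤ u := by nlinarith
  have hL : 0 < Real.log K - 1 := by linarith
  have hphi := phi_pos hθ
  -- choice of t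
  have ha : 4 ≤ δ * u := by
    have : δ * (k * D0) ≤ δ * u := mul_le_mul_of_nonneg_left hu1 hδ.le
    nlinarith
  have hun' : (u : ℝ) ≤ k * d := by nlinarith
  obtain ⟨t, ht, ht1, ht2, ht3⟩ := exists_small hd hG hV hn hs (by positivity) ha (by nlinarith)
  have ht' : (0 : ℝ) < t := by exact_mod_cast ht
  have htu : (u : ℝ) + t ≤ k * d := by nlinarith
  have hut : u + t ≤ Fintype.card V := by
    rw [hV]; exact_mod_cast htu
  have hun : u ≤ Fintype.card V := by omega
  have htn : t ≤ Fintype.card V := by omega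
  -- choice of m0
  set m0 := ⌈δ * (k * d) / u⌉₊ with hm0
  have hm0a : δ * (k * d) / u ≤ m0 := Nat.le_ceil _
  have hm0b : (m0 : ℝ) < δ * (k * d) / u + 1 := Nat.ceil_lt_add_one (by positivity)
  have hm0c : 1 ≤ m0 := by
    rw [Nat.one_le_ceil_iff]
    positivity
  have hm0d : (0 : ℝ) < m0 := by exact_mod_cast hm0c
  have h := beta_le hG hne (by omega) hu ht hut (by rw [hV]; exact hn) hK0 hK hθ hm0c
  have hp := pr_le' hG hne (by omega) hu hun (by rw [hV]; exact hn) hK0 hK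
  rw [hV] at h hp hun htn
  have hDu := Dn_ge hk hd hun
  have hDt := Dn_ge hk hd htn
  have hDu' := Dn_le hk hd hu
  have hslu := sl_nonneg hG hne (by omega) hu (by rw [hV]; exact hun) (by rw [hV]; exact hn)
  have hslt := sl_nonneg hG hne (by omega) ht (by rw [hV]; exact htn) (by rw [hV]; exact hn)
  set Du := Dn d (k * d) u with hDudef
  set Dt := Dn d (k * d) t with hDtdef
  push_cast at h
  have hkk : (0 : ℝ) < k := by linarith
  have huk : 0 < (u : ℝ) / k := by positivity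
  have htk : 0 < (t : ℝ) / k := by positivity
  have hDu0 : 0 < Du := by linarith
  have hDt0 : 0 < Dt := by linarith
  have hkuD : (k : ℝ) / u ≤ 1 / D0 := by
    rw [div_le_div_iff₀ (by linarith) (by linarith)]
    linarith
  have hslu' : sl G d u ≤ K0 / D0 := by
    refine hsl.trans ?_
    have : K0 * k / u = K0 * (k / u) := by ring
    rw [this]
    have := mul_le_mul_of_nonneg_left hkuD hK00.le
    linarith [this, show K0 * (1 / D0) = K0 / D0 by ring]
  -- (i)
  have b1 : pr G u ≤ K / D0 + K0 / (D0 * (Real.log K - 1)) := by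
    refine hp.trans ?_
    apply add_le_add
    · rw [div_le_div_iff₀ hDu0 (by linarith)]
      apply mul_le_mul_of_nonneg_left _ hK0.le
      refine le_trans ?_ hDu
      rw [le_div_iff₀ hkk]
      linarith
    · rw [← div_div]
      exact div_le_div_of_nonneg_right hslu' hL.le
  -- (ii)
  have b2 : (m0 : ℝ) * (((u : ℝ) - 1) / (k * d - 1)) ≤ 2 * δ := by
    have e1 : ((u : ℝ) - 1) / (k * d - 1) ≤ u / (k * d) := by
      rw [div_le_div_iff₀ (by linarith) (by linarith)]
      nlinarith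
    have e2 : 0 ≤ ((u : ℝ) - 1) / (k * d - 1) := div_nonneg (by linarith) (by linarith)
    have e3 : (m0 : ℝ) * (((u : ℝ) - 1) / (k * d - 1)) ≤
        (δ * (k * d) / u + 1) * (u / (k * d)) :=
      mul_le_mul hm0b.le e1 e2 (by positivity)
    refine e3.trans ?_
    have e4 : (δ * (k * d) / u + 1) * ((u : ℝ) / (k * d)) = δ + u / (k * d) := by
      field_simp
    rw [e4]
    have e5 : (u : ℝ) / (k * d) ≤ δ := by
      rw [div_le_iff₀ (by linarith)]
      linarith
    linarith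
  have hr : (k : ℝ) * d / 2 ≤ (k : ℝ) * d - u := by nlinarith
  have hr0 : 0 < (k : ℝ) * d - u := by nlinarith
  -- (iii)
  have b3 : 2 * ((k : ℝ) * d) * t / (u * (k * d - u)) ≤ 4 * δ := by
    rw [div_le_iff₀ (by positivity)]
    have e1 : 2 * ((k : ℝ) * d) * t ≤ 2 * ((k : ℝ) * d) * (δ * u) :=
      mul_le_mul_of_nonneg_left ht2 (by positivity)
    have e2 : 4 * δ * (u * (k * d / 2)) ≤ 4 * δ * (u * ((k : ℝ) * d - u)) := by
      apply mul_le_mul_of_nonneg_left _ (by positivity)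
      exact mul_le_mul_of_nonneg_left hr (by positivity)
    nlinarith
  -- (iv), (v)
  have c1 : 2 * ((k : ℝ) * d - u) / m0 ≤ 2 * u / δ := by
    rw [div_le_div_iff₀ hm0d hδ]
    have e1 : δ * (k * d) ≤ m0 * u := by
      rwa [div_le_iff₀ (by linarith)] at hm0a
    nlinarith
  have c2 : 2 * ((k : ℝ) * d - u) / (m0 * t) * (K / Dt * (Du * sl G d u / phi θ)) ≤
      16 * K * K0 / (δ ^ 3 * phi θ * D0) := by
    have e1 : 2 * ((k : ℝ) * d - u) / (m0 * t) ≤ 4 / δ ^ 2 := by
      rw [← div_div]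
      rw [div_le_div_iff₀ ht' (by positivity)]
      have e2 := mul_le_mul_of_nonneg_right c1 (show 0 ≤ δ ^ 2 by positivity)
      refine e2.trans ?_
      have e3 : 2 * (u : ℝ) / δ * δ ^ 2 = 2 * (δ * u) := by
        field_simp
      rw [e3]
      linarith
    have e2 : K / Dt ≤ 2 * K * k / (δ * u) := by
      rw [div_le_div_iff₀ hDt0 (by positivity)]
      have e3 : δ * u / 2 / k ≤ Dt := by
        refine le_trans ?_ hDt
        exact div_le_div_of_nonneg_right ht1.le hkk.le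
      have e4 : δ * u ≤ 2 * k * Dt := by
        rw [div_le_iff₀ hkk] at e3
        linarith
      have e5 := mul_le_mul_of_nonneg_left e4 hK0.le
      linarith
    have e3 : Du ≤ 2 * u / k := by
      refine hDu'.trans ?_
      have : (1 : ℝ) ≤ u / k := by
        rw [le_div_iff₀ hkk]; linarith
      have e4 : 2 * (u : ℝ) / k = u / k + u / k := by ring
      linarith
    have e4 : Du * sl G d u / phi θ ≤ (2 * u / k) * (K0 * k / u) / phi θ := by
      apply div_le_div_of_nonneg_right _ hphi.le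
      exact mul_le_mul e3 hsl hslu (by positivity)
    have e5 : (2 * u / k) * (K0 * k / u) / phi θ = 2 * K0 / phi θ := by
      field_simp
    rw [e5] at e4
    have e6 : K / Dt * (Du * sl G d u / phi θ) ≤ (2 * K * k / (δ * u)) * (2 * K0 / phi θ) :=
      mul_le_mul e2 e4 (by positivity) (by positivity)
    have e7 : 2 * ((k : ℝ) * d - u) / (m0 * t) * (K / Dt * (Du * sl G d u / phi θ)) ≤
        (4 / δ ^ 2) * ((2 * K * k / (δ * u)) * (2 * K0 / phi θ)) :=
      mul_le_mul e1 e6 (by positivity) (by positivity)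
    refine e7.trans ?_
    have e8 : (4 / δ ^ 2) * ((2 * K * k / (δ * u)) * (2 * K0 / phi θ)) =
        16 * K * K0 / (δ ^ 3 * phi θ) * (k / u) := by
      field_simp
      ring
    rw [e8]
    have e9 := mul_le_mul_of_nonneg_left hkuD
      (show 0 ≤ 16 * K * K0 / (δ ^ 3 * phi θ) by positivity)
    refine e9.trans (le_of_eq ?_)
    field_simp
  have c3 : 2 * ((k : ℝ) * d - u) / (m0 * t) * ((t : ℝ) / u * (sl G d t / (Real.log K - 1))) ≤
      8 * s / (δ ^ 2 * D0 * (Real.log K - 1)) := by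
    have e1 : 2 * ((k : ℝ) * d - u) / (m0 * t) * ((t : ℝ) / u * (sl G d t / (Real.log K - 1))) =
        2 * ((k : ℝ) * d - u) / m0 * (sl G d t / (u * (Real.log K - 1))) := by
      field_simp
    rw [e1]
    have e2 : 2 * ((k : ℝ) * d - u) / m0 * (sl G d t / (u * (Real.log K - 1))) ≤
        2 * u / δ * ((4 * (k * s) / (δ * u)) / (u * (Real.log K - 1))) := by
      apply mul_le_mul c1 _ (by positivity) (by positivity)
      exact div_le_div_of_nonneg_right ht3 (by positivity)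
    refine e2.trans ?_
    have e3 : 2 * u / δ * ((4 * (k * s) / (δ * u)) / (u * (Real.log K - 1))) =
        8 * s / (δ ^ 2 * (Real.log K - 1)) * (k / u) := by
      field_simp
      ring
    rw [e3]
    have e4 := mul_le_mul_of_nonneg_left hkuD
      (show 0 ≤ 8 * s / (δ ^ 2 * (Real.log K - 1)) by positivity)
    refine e4.trans (le_of_eq ?_)
    field_simp
  rw [mul_add] at h
  unfold Bd
  linarith

end Pool.Agent.Helper49.CF
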