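import Pool.Agent.Helper49.CF.Slack
import Pool.Graph.R_pool_sql_team_seeded_1e53cb71.H71K9.Gurvits

/-!
# The lower bound for the number of cycle-factors
-/

set_option linter.unusedSectionVars false

open Finset

namespace Pool.Agent.Helper49.CF

open Pool.Agent.H71K9.PM MvPolynomial

variable {V : Type*} [Fintype V] [DecidableEq V]

lemma NN_mul {p q : MvPolynomial V ℝ} (hp : NN p) (hq : NN q) : NN (p * q) := by
  intro m
  rw [coeff_mul]
  exact sum_nonneg fun x _ => mul_nonneg (hp _) (hq _)

lemma NN_one : NN (1 : MvPolynomial V ℝ) := by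
  intro m
  rw [coeff_one]
  split_ifs <;> norm_num

lemma NN_prod {ι : Type*} (s : Finset ι) (f : ι → MvPolynomial V ℝ) (h : ∀ i ∈ s, NN (f i)) :
    NN (∏ i ∈ s, f i) := by
  classical
  induction s using Finset.induction_on with
  | empty => exact NN_one
  | insert a s ha ih =>
    rw [prod_insert ha]
    exact NN_mul (h a (mem_insert_self _ _)) (ih fun i hi => h i (mem_insert_of_mem hi))

lemma NN_sumX (s : Finset V) : NN (∑ j ∈ s, (X j : MvPolynomial V ℝ)) := by
  intro m
  rw [coeff_sum]
  apply sum_nonneg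
  intro j _
  rw [coeff_X]
  split_ifs <;> norm_num

/-- the polynomial of the digraph -/
noncomputable def pol (N : V → Finset V) : MvPolynomial V ℝ := ∏ i, ∑ j ∈ N i, X j

lemma nice_pol {N : V → Finset V} (h : ∀ i, (N i).Nonempty) : Nice (pol N) := by
  refine ⟨NN_prod _ _ fun i _ => NN_sumX _, ⟨Fintype.card V, ?_⟩, ?_⟩
  · have h1 := IsHomogeneous.prod (R := ℝ) (univ : Finset V) (fun i => ∑ j ∈ N i, X j)
      (fun _ => 1) (fun i _ => IsHomogeneous.sum _ _ _ fun j _ => isHomogeneous_X _ _)
    simpa [pol] using h1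
  · intro z hz
    unfold pol
    rw [map_prod]
    apply prod_ne_zero_iff.2
    intro i _
    rw [map_sum]
    simp only [aeval_X]
    intro h0
    have h1 : (∑ j ∈ N i, z j).re = 0 := by rw [h0]; rfl
    rw [Complex.re_sum] at h1
    have h2 : 0 < ∑ j ∈ N i, (z j).re := sum_pos (fun j _ => hz j) (h i)
    linarith

lemma degreeOf_pol {N : V → Finset V} (j : V) :
    degreeOf j (pol N) ≤ (univ.filter fun i => j ∈ N i).card := by
  unfold pol
  refine (degreeOf_prod_le _ _ _).trans ?_
  rw [card_eq_sum_ones, sum_filter]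
  apply sum_le_sum
  intro i _
  rw [degreeOf_le_iff]
  intro m hm
  rw [mem_support_iff, coeff_sum] at hm
  obtain ⟨k, hk, hk2⟩ := exists_ne_zero_of_sum_ne_zero hm
  rw [coeff_X] at hk2
  have hk3 : Finsupp.single k 1 = m := by
    by_contra hc
    rw [if_neg hc] at hk2
    exact hk2 rfl
  subst hk3
  by_cases hkj : k = j
  · subst hkj
    simp [hk]
  · rw [Finsupp.single_apply, if_neg hkj]
    exact Nat.zero_le _

lemma coeff_DL (l : List V) (hl : l.Nodup) (p : MvPolynomial V ℝ) (m : V →₀ ℕ) :
    coeff m (DL l p) = if (∀ i ∈ l, m i = 0) then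
      coeff (m + ∑ i ∈ l.toFinset, Finsupp.single i 1) p else 0 := by
  induction l generalizing p m with
  | nil => simp [DL]
  | cons i l ih =>
    rw [List.nodup_cons] at hl
    have hi : i ∉ l.toFinset := by rw [List.mem_toFinset]; exact hl.1
    rw [DL, ih hl.2, List.toFinset_cons, sum_insert hi]
    by_cases h : ∀ j ∈ l, m j = 0
    · rw [if_pos h, coeff_D]
      have e : (m + ∑ j ∈ l.toFinset, (Finsupp.single j 1 : V →₀ ℕ)) i = m i := by
        rw [Finsupp.add_apply, Finsupp.finsetSum_apply]
        have : ∑ j ∈ l.toFinset, (Finsupp.single j 1 : V →₀ ℕ) i = 0 := by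
          apply sum_eq_zero
          intro j hj
          rw [Finsupp.single_apply, if_neg]
          rintro rfl
          exact hi hj
        rw [this, add_zero]
      rw [e]
      by_cases h2 : m i = 0
      · rw [if_pos h2, if_pos]
        · congr 1
          rw [add_assoc]
          congr 1
          rw [add_comm]
        · intro j hj
          rw [List.mem_cons] at hj
          rcases hj with rfl | hj
          · exact h2
          · exact h j hj
      · rw [if_neg h2, if_neg]
        intro h3
        exact h2 (h3 i List.mem_cons_self)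
    · rw [if_neg h, if_neg]
      intro h3
      exact h fun j hj => h3 j (List.mem_cons_of_mem _ hj)

lemma eval_DL (p : MvPolynomial V ℝ) (x : V → ℝ) :
    eval x (DL (univ : Finset V).toList p) =
      coeff (∑ i : V, Finsupp.single i 1) p := by
  have h1 : DL (univ : Finset V).toList p = C (coeff (∑ i : V, Finsupp.single i 1) p) := by
    ext m
    rw [coeff_DL _ (nodup_toList _), coeff_C, toList_toFinset]
    by_cases h : m = 0
    · subst h
      simp
    · rw [if_neg (Ne.symm h), if_neg]
      intro h2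
      apply h
      ext i
      exact h2 i (by simp)
  rw [h1, eval_C]

lemma coeff_pol (N : V → Finset V) :
    coeff (∑ i : V, Finsupp.single i 1) (pol N) =
      (((univ : Finset (Equiv.Perm V)).filter fun σ => ∀ i, σ i ∈ N i).card : ℝ) := by
  classical
  unfold pol
  rw [prod_univ_sum, coeff_sum]
  have h1 : ∀ f : V → V, coeff (∑ i : V, Finsupp.single i 1) (∏ i, (X (f i) : MvPolynomial V ℝ)) =
      if Function.Bijective f then 1 else 0 := by
    intro f
    have e1 : ∏ i, (X (f i) : MvPolynomial V ℝ) =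
        monomial (∑ i, Finsupp.single (f i) 1) 1 := by
      rw [monomial_sum_one]
      rfl
    rw [e1, coeff_monomial]
    congr 1
    rw [eq_iff_iff]
    constructor
    · intro h
      have hs : Function.Surjective f := by
        intro j
        have h2 := congrArg (fun m => m j) h
        simp only [Finsupp.finsetSum_apply] at h2
        have h3 : ∑ i : V, (Finsupp.single i 1 : V →₀ ℕ) j = 1 := by
          simp [Finsupp.single_apply]
        rw [h3] at h2
        by_contra hc
        push Not at hc
        have h4 : ∑ i : V, (Finsupp.single (f i) 1 : V →₀ ℕ) j = 0 := by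
          apply sum_eq_zero
          intro i _
          rw [Finsupp.single_apply, if_neg (hc i)]
        omega
      exact Finite.surjective_iff_bijective.1 hs
    · intro h
      exact Function.Bijective.sum_comp h (fun j => (Finsupp.single j 1 : V →₀ ℕ))
  simp only [h1]
  rw [← sum_filter, sum_const, nsmul_eq_mul, mul_one]
  congr 1
  refine card_bij' (fun f hf => Equiv.ofBijective f (mem_filter.1 hf).2) (fun σ _ => σ) ?_ ?_ ?_ ?_
  · intro f hf
    rw [mem_filter, Fintype.mem_piFinset] at hf
    rw [mem_filter]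
    exact ⟨mem_univ _, hf.1⟩
  · intro σ hσ
    rw [mem_filter] at hσ
    rw [mem_filter, Fintype.mem_piFinset]
    exact ⟨hσ.2, σ.bijective⟩
  · intro f hf
    rfl
  · intro σ hσ
    ext; rfl

lemma amgm_finset {s : Finset V} {d : ℕ} (hs : s.card = d) (hd : 1 ≤ d) (y : V → ℝ)
    (hy : ∀ j, 0 < y j) : ∏ j ∈ s, y j ≤ ((∑ j ∈ s, y j) / d) ^ d := by
  have h := amgm_fin d (by omega) (fun i => y (s.equivFin.symm (Fin.cast hs.symm i)))
    (fun i => (hy _).le)
  have e : Fin d ≃ s := (finCongr hs.symm).trans s.equivFin.symm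
  have e1 : ∏ i : Fin d, y (s.equivFin.symm (Fin.cast hs.symm i)) = ∏ j ∈ s, y j := by
    rw [← prod_coe_sort s]
    exact Equiv.prod_comp ((finCongr hs.symm).trans s.equivFin.symm) (fun j : s => y j)
  have e2 : ∑ i : Fin d, y (s.equivFin.symm (Fin.cast hs.symm i)) = ∑ j ∈ s, y j := by
    rw [← sum_coe_sort s]
    exact Equiv.sum_comp ((finCongr hs.symm).trans s.equivFin.symm) (fun j : s => y j)
  rw [e1, e2] at h
  exact h

lemma cap {N : V → Finset V} {d : ℕ} (hd : 1 ≤ d) (h1 : ∀ i, (N i).card = d)
    (h2 : ∀ j, (univ.filter fun i => j ∈ N i).card = d) (y : V → ℝ) (hy : ∀ j, 0 < y j) :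
    (d : ℝ) ^ (Fintype.card V) * ∏ j, y j ≤ eval y (pol N) := by
  have hd' : (0 : ℝ) < d := by exact_mod_cast hd
  have e1 : eval y (pol N) = ∏ i, ∑ j ∈ N i, y j := by
    unfold pol
    rw [map_prod]
    simp
  have hS : ∀ i, 0 < ∑ j ∈ N i, y j := fun i =>
    sum_pos (fun j _ => hy j) (card_pos.1 (by rw [h1 i]; omega))
  have e2 : (∏ j, y j) ^ d ≤ (∏ i, (∑ j ∈ N i, y j) / d) ^ d := by
    rw [← prod_pow, ← prod_pow]
    have e3 : ∏ j, y j ^ d = ∏ i, ∏ j ∈ N i, y j := by
      have : ∀ i, ∏ j ∈ N i, y j = ∏ j, if j ∈ N i then y j else 1 := by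
        intro i
        rw [← prod_filter]
        congr 1
        ext j; simp
      simp only [this]
      rw [prod_comm]
      refine prod_congr rfl fun j _ => ?_
      rw [← prod_filter, prod_const, h2 j]
    rw [e3]
    exact prod_le_prod (fun i _ => prod_nonneg fun j _ => (hy j).le)
      fun i _ => amgm_finset (h1 i) hd y hy
  have e3 : ∏ j, y j ≤ ∏ i, (∑ j ∈ N i, y j) / d :=
    le_of_pow_le_pow_left₀ (by omega) (prod_nonneg fun i _ => by have := hS i; positivity) e2
  rw [e1]
  rw [prod_div_distrib, prod_const, card_univ, le_div_iff₀ (by positivity)] at e3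
  linarith

lemma cst_ge {d : ℕ} (hd : 2 ≤ d) : Real.exp (-1) ≤ cst d := by
  have h1 : (1 : ℝ) < d := by exact_mod_cast hd
  have h2 : (0 : ℝ) < (d : ℝ) - 1 := by linarith
  have h3 : (0 : ℝ) < ((d : ℝ) - 1) / d := by positivity
  unfold cst
  rw [← Real.log_le_log_iff (Real.exp_pos _) (by positivity), Real.log_exp, Real.log_pow]
  rw [Nat.cast_sub (by omega), Nat.cast_one]
  have h4 := Real.one_sub_inv_le_log_of_pos h3
  have h5 : 1 - (((d : ℝ) - 1) / d)⁻¹ = - (1 / (d - 1)) := by
    field_simp
    ring
  rw [h5] at h4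
  have h6 := mul_le_mul_of_nonneg_left h4 h2.le
  have h7 : ((d : ℝ) - 1) * -(1 / (d - 1)) = -1 := by field_simp
  linarith

theorem card_cf_ge {G : V → V → Prop} {d : ℕ} (hd : 2 ≤ d) (hG : Reg G d) :
    ((d : ℝ) * Real.exp (-1)) ^ (Fintype.card V) ≤ (cf G).card := by
  classical
  have hd' : (0 : ℝ) < d := by positivity
  set N : V → Finset V := fun i => univ.filter fun j => G i j with hN
  have h1 : ∀ i, (N i).card = d := fun i => by
    rw [← hG.1 i]
  have h2 : ∀ j, (univ.filter fun i => j ∈ N i).card = d := by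
    intro j
    rw [← hG.2 j]
    congr 1
    ext i; simp [hN]
  have h3 := gurvits_list hd (univ : Finset V).toList (nice_pol (N := N) (fun i =>
    card_pos.1 (by rw [h1 i]; omega))) (nodup_toList _) (fun j _ => by
      refine (degreeOf_pol j).trans ?_
      rw [h2 j]) (fun _ => 1) (fun _ => one_pos) ((d : ℝ) ^ (Fintype.card V)) (by positivity)
    (fun y hy _ => by
      rw [prod_map_toList]
      exact cap (by omega) h1 h2 y hy)
  rw [eval_DL, coeff_pol, length_toList, card_univ] at h3
  have h4 : ((univ : Finset (Equiv.Perm V)).filter fun σ => ∀ i, σ i ∈ N i) = cf G := by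
    ext σ; simp [hN, mem_cf]
  rw [h4] at h3
  refine le_trans ?_ h3
  rw [mul_pow, mul_comm]
  apply mul_le_mul_of_nonneg_right _ (by positivity)
  exact pow_le_pow_left₀ (Real.exp_pos _).le (cst_ge hd) _

lemma cf_nonempty {G : V → V → Prop} {d : ℕ} (hd : 2 ≤ d) (hG : Reg G d) : (cf G).Nonempty := by
  have h := card_cf_ge hd hG
  have h1 : 0 < ((d : ℝ) * Real.exp (-1)) ^ (Fintype.card V) := by
    have := Real.exp_pos (-1)
    positivity
  rw [← card_pos]
  have : (0 : ℝ) < (cf G).card := by linarith
  exact_mod_cast this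

lemma log_card_cf_ge {G : V → V → Prop} {d : ℕ} (hd : 2 ≤ d) (hG : Reg G d) :
    (Fintype.card V : ℝ) * (Real.log d - 1) ≤ Real.log (cf G).card := by
  have h := card_cf_ge hd hG
  have h0 : (0 : ℝ) < d := by positivity
  have h1 : 0 < ((d : ℝ) * Real.exp (-1)) ^ (Fintype.card V) := by
    have := Real.exp_pos (-1)
    positivity
  have h2 := Real.log_le_log h1 h
  rw [Real.log_pow, Real.log_mul h0.ne' (Real.exp_pos _).ne', Real.log_exp] at h2
  exact h2

end Pool.Agent.Helper49.CF
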