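import Mathlib
import Pool.Agent.Helper79.CF.Spec
set_option autoImplicit false
namespace Pool.Agent.Helper49.CF.REA
open Pool.Agent.Helper88.EL (num num_lt num_div num_add)
open Pool.Agent.Helper79.CF

theorem le_upper (b : ℕ → Bool) (k n : ℕ) :
    (num b k : ℝ) / 2 ^ k ≤ ((num b n : ℝ) + 1) / 2 ^ n := by
  rw [div_le_div_iff₀ (by positivity) (by positivity)]
  rcases le_total k n with h | h
  · obtain ⟨i, rfl⟩ := Nat.exists_eq_add_of_le h
    have h1 : num b k * 2 ^ i ≤ num b (k + i) := by rw [num_add]; omega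
    have h2 : (num b k : ℝ) * 2 ^ i ≤ num b (k + i) := by exact_mod_cast h1
    rw [pow_add]
    have h3 : (0 : ℝ) < 2 ^ k := by positivity
    nlinarith
  · obtain ⟨i, rfl⟩ := Nat.exists_eq_add_of_le h
    have h0 := num_lt (fun j => b (n + j)) i
    have h1 : num b (n + i) + 1 ≤ (num b n + 1) * 2 ^ i := by rw [num_add]; ring_nf; ring_nf at h0; omega
    have h2 : (num b (n + i) : ℝ) + 1 ≤ (num b n + 1) * 2 ^ i := by exact_mod_cast h1
    rw [pow_add]
    have h3 : (0 : ℝ) < 2 ^ n := by positivity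
    nlinarith

theorem main : S_REA := by
  intro b
  have hb : BddAbove (Set.range fun k => (num b k : ℝ) / 2 ^ k) :=
    ⟨((num b 0 : ℝ) + 1) / 2 ^ 0, by rintro _ ⟨k, rfl⟩; exact le_upper b k 0⟩
  have hl : ∀ u, (num b u : ℝ) / 2 ^ u ≤ ⨆ k, (num b k : ℝ) / 2 ^ k := fun u => le_ciSup hb u
  have hu : ∀ u, (⨆ k, (num b k : ℝ) / 2 ^ k) ≤ ((num b u : ℝ) + 1) / 2 ^ u :=
    fun u => ciSup_le fun k => le_upper b k u
  refine ⟨⨆ k, (num b k : ℝ) / 2 ^ k, ?_, ?_, fun u => ⟨?_, ?_⟩⟩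
  · exact le_trans (by positivity) (hl 0)
  · have := hu 0
    simpa [num] using this
  · have := hl u
    rw [div_le_iff₀ (by positivity)] at this
    linarith
  · have := hu u
    rw [le_div_iff₀ (by positivity)] at this
    linarith

end Pool.Agent.Helper49.CF.REA
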