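import Pool.Agent.Helper49.CF.Level

/-!
# The slack between `log D` and the conditional entropy
-/

set_option linter.unusedSectionVars false

open Finset

namespace Pool.Agent.Helper49.CF

variable {V : Type*} [Fintype V] [DecidableEq V]

/-- `x log x - x + 1` -/
noncomputable def phi (x : ℝ) : ℝ := x * Real.log x - x + 1

lemma phi_nonneg {x : ℝ} (hx : 0 ≤ x) : 0 ≤ phi x := by
  unfold phi
  rcases hx.eq_or_lt with h | h
  · rw [← h]; norm_num
  · have h1 := Real.one_sub_inv_le_log_of_pos h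
    have h2 := mul_le_mul_of_nonneg_left h1 hx
    have h3 : x * (1 - x⁻¹) = x - 1 := by field_simp
    linarith

lemma phi_tail {x K : ℝ} (hK : 0 < K) (hx : K ≤ x) : x * (Real.log K - 1) ≤ phi x := by
  unfold phi
  have h1 : Real.log K ≤ Real.log x := Real.log_le_log hK hx
  have h2 : 0 < x := by linarith
  have h3 := mul_le_mul_of_nonneg_left h1 h2.le
  linarith

lemma phi_mono {x y : ℝ} (hx : 1 ≤ x) (hxy : x ≤ y) : phi x ≤ phi y := by
  have h0 : 0 < x := by linarith
  have h00 : 0 < y := by linarith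
  have h1 : Real.log x ≤ Real.log y := Real.log_le_log h0 hxy
  have h2 : 0 ≤ Real.log x := Real.log_nonneg hx
  have h3 := Real.one_sub_inv_le_log_of_pos (show 0 < y / x by positivity)
  rw [Real.log_div (by linarith) (by linarith)] at h3
  unfold phi
  have h4 := mul_le_mul_of_nonneg_left h3 (show 0 ≤ y by linarith)
  have h5 : y * (1 - (y / x)⁻¹) = y - x := by
    have : y ≠ 0 := by linarith
    field_simp
  rw [h5] at h4
  nlinarith

lemma phi_pos {x : ℝ} (hx : 1 < x) : 0 < phi x := by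
  unfold phi
  have h0 : 0 < x := by linarith
  have h1 := Real.log_lt_sub_one_of_pos (inv_pos.2 h0) (by
    intro h; rw [inv_eq_one] at h; linarith)
  rw [Real.log_inv] at h1
  have h2 := mul_lt_mul_of_pos_left h1 h0
  have h3 : x * (x⁻¹ - 1) = 1 - x := by field_simp
  linarith

lemma card_avl {G : V → V → Prop} [∀ i j, Decidable (G i j)] {U : Finset V}
    {σ : Equiv.Perm V} {i : V} :
    (avl G U σ i).card = (U.filter fun j => G i (σ j)).card := by
  refine (card_nbij' (fun j => σ j) (fun c => σ⁻¹ c) ?_ ?_ ?_ ?_).symm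
  · intro j hj
    simp only [coe_filter, Set.mem_ofPred_eq] at hj
    rw [mem_coe, mem_avl, inv_app]
    exact hj
  · intro c hc
    rw [mem_coe, mem_avl] at hc
    simp only [coe_filter, Set.mem_ofPred_eq]
    rw [app_inv]
    exact hc
  · intro j _; simp
  · intro c _; simp

lemma Ex_card_avl {G : V → V → Prop} {d u : ℕ} (hG : Reg G d) (hne : (cf G).Nonempty) (hu : 1 ≤ u)
    (hun : u ≤ Fintype.card V) (hn : 2 ≤ Fintype.card V) :
    Ex G u (fun σ U i => ((avl G U σ i).card : ℝ)) = Dn d (Fintype.card V) u := by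
  classical
  unfold Ex
  have h : ∀ σ ∈ cf G, av u (fun (U : Finset V) (i : V) => ((avl G U σ i).card : ℝ)) =
      Dn d (Fintype.card V) u := by
    intro σ hσ
    simp only [card_avl]
    refine av_pair hu hun hn (fun i j => G i (σ j)) (fun i => mem_cf.1 hσ i) (fun i => ?_)
    rw [← hG.1 i]
    refine card_nbij' (fun j => σ j) (fun c => σ⁻¹ c) ?_ ?_ ?_ ?_
    · intro j hj
      simpa using hj
    · intro c hc
      simpa using hc
    · intro j _; simp
    · intro c _; simp
  rw [sum_congr rfl h, sum_const, nsmul_eq_mul]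
  have : 0 < (cf G).card := card_pos.2 hne
  field_simp

lemma Dn_ge_one {d n u : ℕ} (hd : 1 ≤ d) (hn : 2 ≤ n) (hu : 1 ≤ u) : 1 ≤ Dn d n u := by
  unfold Dn
  have h1 : (1 : ℝ) ≤ d := by exact_mod_cast hd
  have h2 : (2 : ℝ) ≤ n := by exact_mod_cast hn
  have h3 : (1 : ℝ) ≤ u := by exact_mod_cast hu
  have : 0 ≤ ((d : ℝ) - 1) * (u - 1) / (n - 1) :=
    div_nonneg (mul_nonneg (by linarith) (by linarith)) (by linarith)
  linarith

/-- the slack -/
noncomputable def sl (G : V → V → Prop) (d u : ℕ) : ℝ :=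
  Real.log (Dn d (Fintype.card V) u) - en G u

lemma sl_eq {G : V → V → Prop} {d u : ℕ} (hG : Reg G d) (hne : (cf G).Nonempty) (hd : 1 ≤ d)
    (hu : 1 ≤ u) (hun : u ≤ Fintype.card V) (hn : 2 ≤ Fintype.card V) :
    sl G d u = Ex G u (fun σ U i => ∑ c ∈ avl G U σ i,
      1 / Dn d (Fintype.card V) u * phi (Dn d (Fintype.card V) u * b G U σ i c)) := by
  set D := Dn d (Fintype.card V) u with hD
  have hD1 : 1 ≤ D := Dn_ge_one hd hn hu
  have hD0 : D ≠ 0 := by linarith
  -- pointwise
  have h1 : Ex G u (fun σ U i => ∑ c ∈ avl G U σ i, 1 / D * phi (D * b G U σ i c)) =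
      Ex G u (fun σ U i => (∑ c, b G U σ i c * Real.log (b G U σ i c)) +
        ((Real.log D - 1) + 1 / D * ((avl G U σ i).card : ℝ))) := by
    apply Ex_congr
    intro σ hσ U _ i hi
    have e1 : ∀ c, 1 / D * phi (D * b G U σ i c) =
        b G U σ i c * Real.log (b G U σ i c) + b G U σ i c * (Real.log D - 1) + 1 / D := by
      intro c
      unfold phi
      rcases (b_nonneg G U σ i c).eq_or_lt with h | h
      · rw [← h]; simp
      · rw [Real.log_mul hD0 h.ne']
        field_simp
        ring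
    simp only [e1]
    rw [sum_add_distrib, sum_add_distrib, ← sum_mul, sum_b_avl hσ hi, sum_const, nsmul_eq_mul]
    have e2 : ∑ c ∈ avl G U σ i, b G U σ i c * Real.log (b G U σ i c) =
        ∑ c, b G U σ i c * Real.log (b G U σ i c) := by
      apply sum_subset (subset_univ _)
      intro c _ hc
      rw [b_eq_zero hi hc]; simp
    rw [e2]
    ring
  rw [h1, Ex_add, Ex_add, Ex_const hne hu hun, Ex_mul, Ex_card_avl hG hne hu hun hn, ← hD]
  have h2 : Ex G u (fun σ U i => ∑ c, b G U σ i c * Real.log (b G U σ i c)) = - en G u := by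
    rw [← Ex_tower u (fun σ U i c => Real.log (b G U σ i c))]
    · unfold en
      have := Ex_mul G u (-1) (fun σ U i => - Real.log (b G U σ i (σ i)))
      simp only [neg_mul, one_mul, neg_neg] at this
      exact this
    · intro U i hi σ hσ τ hτ h
      funext c
      rw [b_congr i c h]
  rw [h2]
  unfold sl
  rw [← hD]
  field_simp
  ring

lemma sl_nonneg {G : V → V → Prop} {d u : ℕ} (hG : Reg G d) (hne : (cf G).Nonempty) (hd : 1 ≤ d)
    (hu : 1 ≤ u) (hun : u ≤ Fintype.card V) (hn : 2 ≤ Fintype.card V) : 0 ≤ sl G d u := by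
  rw [sl_eq hG hne hd hu hun hn]
  have hD1 := Dn_ge_one hd hn hu
  have h := Ex_mono (G := G) (u := u) (f := fun _ _ _ => 0) (g := fun σ U i => ∑ c ∈ avl G U σ i,
      1 / Dn d (Fintype.card V) u * phi (Dn d (Fintype.card V) u * b G U σ i c)) ?_
  · rwa [Ex_const hne hu hun] at h
  · intro σ _ U _ i _
    apply sum_nonneg
    intro c _
    apply mul_nonneg
    · apply div_nonneg <;> linarith
    · exact phi_nonneg (mul_nonneg (by linarith) (b_nonneg _ _ _ _ _))

/-- the tail -/
noncomputable def tail (G : V → V → Prop) (D K : ℝ) (σ : Equiv.Perm V) (U : Finset V) (i : V) :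
    ℝ := ∑ c ∈ avl G U σ i, if K < D * b G U σ i c then b G U σ i c else 0

lemma tail_nonneg (G : V → V → Prop) (D K : ℝ) (σ : Equiv.Perm V) (U : Finset V) (i : V) :
    0 ≤ tail G D K σ U i := by
  apply sum_nonneg
  intro c _
  split_ifs
  · exact b_nonneg _ _ _ _ _
  · exact le_rfl

lemma Ex_tail {G : V → V → Prop} {d u : ℕ} (hG : Reg G d) (hne : (cf G).Nonempty) (hd : 1 ≤ d)
    (hu : 1 ≤ u) (hun : u ≤ Fintype.card V) (hn : 2 ≤ Fintype.card V) {K : ℝ}
    (hK0 : 0 < K) (hK : 1 < Real.log K) :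
    Ex G u (tail G (Dn d (Fintype.card V) u) K) ≤ sl G d u / (Real.log K - 1) := by
  rw [le_div_iff₀ (by linarith), mul_comm, ← Ex_mul, sl_eq hG hne hd hu hun hn]
  have hD1 := Dn_ge_one hd hn hu
  set D := Dn d (Fintype.card V) u with hD
  apply Ex_mono
  intro σ _ U _ i _
  unfold tail
  rw [mul_sum]
  apply sum_le_sum
  intro c _
  split_ifs with h
  · have h1 := phi_tail hK0 h.le
    rw [one_div, ← div_eq_inv_mul, le_div_iff₀ (by linarith)]
    linarith
  · rw [mul_zero]
    apply mul_nonneg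
    · apply div_nonneg <;> linarith
    · exact phi_nonneg (mul_nonneg (by linarith) (b_nonneg _ _ _ _ _))

/-- the number of the large values -/
noncomputable def big (G : V → V → Prop) (D θ : ℝ) (σ : Equiv.Perm V) (U : Finset V) (i : V) :
    ℝ := ∑ c ∈ avl G U σ i, if θ ≤ D * b G U σ i c then 1 else 0

lemma Ex_big {G : V → V → Prop} {d u : ℕ} (hG : Reg G d) (hne : (cf G).Nonempty) (hd : 1 ≤ d)
    (hu : 1 ≤ u) (hun : u ≤ Fintype.card V) (hn : 2 ≤ Fintype.card V) {θ : ℝ}
    (hθ : 1 < θ) :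
    Ex G u (big G (Dn d (Fintype.card V) u) θ) ≤ Dn d (Fintype.card V) u * sl G d u / phi θ := by
  rw [le_div_iff₀ (phi_pos hθ), mul_comm, ← Ex_mul, sl_eq hG hne hd hu hun hn, ← Ex_mul]
  have hD1 := Dn_ge_one hd hn hu
  set D := Dn d (Fintype.card V) u with hD
  apply Ex_mono
  intro σ _ U _ i _
  unfold big
  rw [mul_sum, mul_sum]
  apply sum_le_sum
  intro c _
  have e : D * (1 / D * phi (D * b G U σ i c)) = phi (D * b G U σ i c) := by
    have : D ≠ 0 := by linarith
    field_simp
  rw [e]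
  split_ifs with h
  · rw [mul_one]
    exact phi_mono hθ.le h
  · rw [mul_zero]
    exact phi_nonneg (mul_nonneg (by linarith) (b_nonneg _ _ _ _ _))

end Pool.Agent.Helper49.CF
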