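import Pool.Agent.Helper49.CF.Clos

/-!
# The spread lemma
-/

set_option linter.unusedSectionVars false

open Finset

namespace Pool.Agent.Helper49.CF

variable {V : Type*} [Fintype V] [DecidableEq V]

/-- exactly one interior point of the path is in `T` -/
def One (σ : Equiv.Perm V) (U T : Finset V) (i : V) : Prop :=
  ∃ a < tm σ U i, σ.symm^[a + 1] i ∈ T ∧ ∀ c < tm σ U i, c ≠ a → σ.symm^[c + 1] i ∉ T

lemma sum_inj_le {S A : Finset V} {s : V → V} (hs : ∀ x ∈ S, ∀ y ∈ S, s x = s y → x = y)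
    {g : V → ℝ} (hg0 : ∀ c, 0 ≤ g c) (hgA : ∀ c, c ∉ A → g c = 0) :
    ∑ x ∈ S, g (s x) ≤ ∑ c ∈ A, g c := by
  have h1 : ∑ x ∈ S, g (s x) = ∑ c ∈ S.image s, g c :=
    (sum_image (fun x hx y hy h => hs x hx y hy h)).symm
  have h2 : ∑ c ∈ A, g c = ∑ c, g c := sum_subset (subset_univ _) (fun c _ hc => hgA c hc)
  rw [h1, h2]
  exact sum_le_sum_of_subset_of_nonneg (subset_univ _) (fun c _ _ => hg0 c)

lemma upper_one {G : V → V → Prop} {D D3 K θ : ℝ} (hD3 : 0 < D3) (hK : 0 ≤ K)
    {U T : Finset V} (hUT : Disjoint U T) {i : V} (hi : i ∈ U) :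
    ∑ σ ∈ cf G, ind (Bad G D θ σ U i ∧ One σ U T i) ≤
      ∑ σ ∈ cf G, ∑ x ∈ T, (K / D3 * ind (θ ≤ D * b G U σ i (st σ (U ∪ T) x)) +
        if K < D3 * b G T σ x (st σ (U ∪ T) i) then b G T σ x (st σ (U ∪ T) i) else 0) := by
  have hdj : ∀ j ∈ U, j ∉ T := fun j hj hjT => (disjoint_left.1 hUT) hj hjT
  -- first step
  have h1 : ∑ σ ∈ cf G, ind (Bad G D θ σ U i ∧ One σ U T i) ≤
      ∑ σ ∈ cf G, ∑ x ∈ T, (if σ x = st σ (U ∪ T) i then
        ind (θ ≤ D * b G U σ i (st σ (U ∪ T) x)) else 0) := by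
    apply sum_le_sum
    intro σ _
    by_cases h : Bad G D θ σ U i ∧ One σ U T i
    · rw [ind_true h]
      obtain ⟨hb, a, ha, hx, hc⟩ := h
      have hs := split hi ha hx hc
      have h2 := single_le_sum (s := T) (f := fun x => if σ x = st σ (U ∪ T) i then
        ind (θ ≤ D * b G U σ i (st σ (U ∪ T) x)) else 0) (fun x _ => by
          split_ifs
          · exact ind_nonneg _
          · exact le_rfl) hx
      have hb' : θ ≤ D * b G U σ i (st σ U i) := hb
      rw [if_pos hs.1, hs.2, ind_true hb'] at h2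
      exact h2
    · rw [ind_false h]
      apply sum_nonneg
      intro x _
      split_ifs
      · exact ind_nonneg _
      · exact le_rfl
  refine h1.trans ?_
  rw [sum_comm]
  rw [sum_comm (s := cf G) (t := T)]
  apply sum_le_sum
  intro x hx
  have h2 := tower (G := G) T x (fun σ c => if c = st σ (U ∪ T) i then
        ind (θ ≤ D * b G U σ i (st σ (U ∪ T) x)) else 0) (by
    intro σ hσ τ hτ h
    have hoff : ∀ j ∉ U ∪ T, τ j = σ j := fun j hj =>
      h j (fun hjT => hj (mem_union_right _ hjT))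
    funext c
    rw [st_congr (mem_union_left _ hi) hoff, st_congr (mem_union_right _ hx) hoff,
      b_congr' hσ hτ i _ hi (fun j hj => h j (hdj j hj))])
  rw [h2]
  apply sum_le_sum
  intro σ _
  have e : ∑ c, b G T σ x c * (if c = st σ (U ∪ T) i then
        ind (θ ≤ D * b G U σ i (st σ (U ∪ T) x)) else 0) =
      b G T σ x (st σ (U ∪ T) i) * ind (θ ≤ D * b G U σ i (st σ (U ∪ T) x)) := by
    simp
  rw [e]
  have hb := b_nonneg G T σ x (st σ (U ∪ T) i)
  have hi0 := ind_nonneg (θ ≤ D * b G U σ i (st σ (U ∪ T) x))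
  have hi1 := ind_le_one (θ ≤ D * b G U σ i (st σ (U ∪ T) x))
  split_ifs with hk
  · have h3 := mul_le_mul_of_nonneg_left hi1 hb
    have h4 : 0 ≤ K / D3 * ind (θ ≤ D * b G U σ i (st σ (U ∪ T) x)) :=
      mul_nonneg (by positivity) hi0
    linarith
  · rw [not_lt] at hk
    have h3 : b G T σ x (st σ (U ∪ T) i) ≤ K / D3 := by
      rw [le_div_iff₀ hD3]; linarith
    have := mul_le_mul_of_nonneg_right h3 hi0
    linarith

lemma upper_two {G : V → V → Prop} {D D3 K θ : ℝ} (hD3 : 0 < D3) (hK : 0 ≤ K)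
    (hθ : 0 < θ) {U T : Finset V} (hUT : Disjoint U T) :
    ∑ i ∈ U, ∑ σ ∈ cf G, ind (Bad G D θ σ U i ∧ One σ U T i) ≤
      K / D3 * (∑ i ∈ U, ∑ σ ∈ cf G, big G D θ σ U i) +
      ∑ x ∈ T, ∑ σ ∈ cf G, tail G D3 K σ T x := by
  have h1 : ∑ i ∈ U, ∑ σ ∈ cf G, ind (Bad G D θ σ U i ∧ One σ U T i) ≤
      ∑ i ∈ U, ∑ σ ∈ cf G, ∑ x ∈ T, (K / D3 * ind (θ ≤ D * b G U σ i (st σ (U ∪ T) x)) +
        if K < D3 * b G T σ x (st σ (U ∪ T) i) then b G T σ x (st σ (U ∪ T) i) else 0) :=
    sum_le_sum fun i hi => upper_one hD3 hK hUT hi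
  refine h1.trans ?_
  simp only [sum_add_distrib]
  apply add_le_add
  · rw [mul_sum]
    apply sum_le_sum
    intro i hi
    rw [mul_sum]
    apply sum_le_sum
    intro σ _
    rw [← mul_sum]
    apply mul_le_mul_of_nonneg_left _ (by positivity)
    have h2 := sum_inj_le (S := T) (A := avl G U σ i) (s := fun x => st σ (U ∪ T) x)
      (g := fun c => ind (θ ≤ D * b G U σ i c))
      (fun x hx y hy h => st_inj σ (mem_union_right _ hx) (mem_union_right _ hy) h)
      (fun c => ind_nonneg _)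
      (fun c hc => ind_false (by rw [b_eq_zero hi hc, mul_zero]; exact not_le.2 hθ))
    unfold big
    refine h2.trans (le_of_eq ?_)
    refine sum_congr rfl fun c _ => ?_
    unfold ind
    split_ifs <;> rfl
  · have e : ∑ i ∈ U, ∑ σ ∈ cf G, ∑ x ∈ T, (if K < D3 * b G T σ x (st σ (U ∪ T) i) then
        b G T σ x (st σ (U ∪ T) i) else 0) =
        ∑ x ∈ T, ∑ σ ∈ cf G, ∑ i ∈ U, (if K < D3 * b G T σ x (st σ (U ∪ T) i) then
        b G T σ x (st σ (U ∪ T) i) else 0) := by
      rw [sum_comm]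
      simp only [sum_comm (s := U) (t := T)]
      rw [sum_comm]
    rw [e]
    apply sum_le_sum
    intro x hx
    apply sum_le_sum
    intro σ _
    exact sum_inj_le (S := U) (A := avl G T σ x) (s := fun i => st σ (U ∪ T) i)
      (g := fun c => if K < D3 * b G T σ x c then b G T σ x c else 0)
      (fun i hi j hj h => st_inj σ (mem_union_left _ hi) (mem_union_left _ hj) h)
      (fun c => by
        split_ifs
        · exact b_nonneg _ _ _ _ _
        · exact le_rfl)
      (fun c hc => by rw [b_eq_zero hx hc]; simp)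

lemma sum_eq_Ex {G : V → V → Prop} (hne : (cf G).Nonempty) {u : ℕ} (hu : 1 ≤ u)
    (hun : u ≤ Fintype.card V) (f : Equiv.Perm V → Finset V → V → ℝ) :
    ∑ U ∈ powersetCard u (univ : Finset V), ∑ i ∈ U, ∑ σ ∈ cf G, f σ U i =
      ((cf G).card : ℝ) * (u * (Fintype.card V).choose u) * Ex G u f := by
  rw [Ex_eq]
  unfold av
  have h1 : (0 : ℝ) < (cf G).card := by exact_mod_cast card_pos.2 hne
  have hC : (0 : ℝ) < (Fintype.card V).choose u := by exact_mod_cast Nat.choose_pos hun
  have hu' : (0 : ℝ) < u := by exact_mod_cast hu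
  simp only [← sum_div]
  field_simp

lemma sum_swap {β : Type*} [AddCommMonoid β] (u t : ℕ) (F : Finset V → Finset V → β) :
    ∑ U ∈ powersetCard u (univ : Finset V), ∑ T ∈ powersetCard t Uᶜ, F U T =
      ∑ T ∈ powersetCard t (univ : Finset V), ∑ U ∈ powersetCard u Tᶜ, F U T := by
  apply sum_comm'
  intro U T
  simp only [mem_powersetCard, subset_univ, true_and]
  constructor
  · rintro ⟨h1, h2, h3⟩
    exact ⟨⟨subset_compl_comm.1 h2, h1⟩, h3⟩
  · rintro ⟨⟨h1, h2⟩, h3⟩
    exact ⟨h2, subset_compl_comm.1 h1, h3⟩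

lemma choose_swap {n u t : ℕ} :
    n.choose u * (n - u).choose t = n.choose t * (n - t).choose u := by
  have h1 := Nat.choose_mul (n := n) (k := u + t) (s := u) (by omega)
  have h2 := Nat.choose_mul (n := n) (k := u + t) (s := t) (by omega)
  rw [Nat.add_sub_cancel_left] at h1
  rw [Nat.add_sub_cancel] at h2
  rw [← h1, ← h2, Nat.choose_symm_add]

lemma spread {G : V → V → Prop} (hne : (cf G).Nonempty) {u t : ℕ} (hu : 1 ≤ u) (ht : 1 ≤ t)
    (hut : u + t ≤ Fintype.card V) {D D3 K θ : ℝ} (hD3 : 0 < D3) (hK : 0 ≤ K)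
    (hθ : 0 < θ) {m0 : ℕ} {m1 : ℝ} (hm1 : m1 * t / ((Fintype.card V : ℝ) - u) ≤ 1 / 2) :
    (m0 : ℝ) * t / (2 * ((Fintype.card V : ℝ) - u)) *
      Ex G u (fun σ U i => ind (Bad G D θ σ U i ∧ (m0 ≤ tm σ U i ∧ (tm σ U i : ℝ) ≤ m1))) ≤
    K / D3 * Ex G u (big G D θ) + (t : ℝ) / u * Ex G t (tail G D3 K) := by
  have hun : u ≤ Fintype.card V := by omega
  have htn : t ≤ Fintype.card V := by omega
  have hr : (0 : ℝ) < (Fintype.card V : ℝ) - u := by
    have : (u : ℝ) + t ≤ Fintype.card V := by exact_mod_cast hut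
    have : (1 : ℝ) ≤ t := by exact_mod_cast ht
    linarith
  -- upper bound
  have hup : ∑ U ∈ powersetCard u (univ : Finset V), ∑ T ∈ powersetCard t Uᶜ,
      ∑ i ∈ U, ∑ σ ∈ cf G, ind (Bad G D θ σ U i ∧ One σ U T i) ≤
      K / D3 * ((((Fintype.card V) - u).choose t : ℕ) *
        (((cf G).card : ℝ) * (u * (Fintype.card V).choose u) * Ex G u (big G D θ))) +
      (((Fintype.card V) - t).choose u : ℕ) *
        (((cf G).card : ℝ) * (t * (Fintype.card V).choose t) * Ex G t (tail G D3 K)) := by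
    have h1 : ∑ U ∈ powersetCard u (univ : Finset V), ∑ T ∈ powersetCard t Uᶜ,
      ∑ i ∈ U, ∑ σ ∈ cf G, ind (Bad G D θ σ U i ∧ One σ U T i) ≤
      ∑ U ∈ powersetCard u (univ : Finset V), ∑ T ∈ powersetCard t Uᶜ,
        (K / D3 * (∑ i ∈ U, ∑ σ ∈ cf G, big G D θ σ U i) +
          ∑ x ∈ T, ∑ σ ∈ cf G, tail G D3 K σ T x) := by
      apply sum_le_sum
      intro U hU
      apply sum_le_sum
      intro T hT
      rw [mem_powersetCard] at hT
      exact upper_two hD3 hK hθ (disjoint_compl_right.mono_right hT.1)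
    refine h1.trans (le_of_eq ?_)
    simp only [sum_add_distrib]
    congr 1
    · rw [← sum_eq_Ex hne hu hun (big G D θ), ← mul_assoc, mul_sum]
      refine sum_congr rfl fun U hU => ?_
      rw [mem_powersetCard] at hU
      rw [sum_const, card_powersetCard, card_compl, hU.2, nsmul_eq_mul]
      ring
    · rw [sum_swap, ← sum_eq_Ex hne ht htn (tail G D3 K), mul_sum]
      refine sum_congr rfl fun T hT => ?_
      rw [mem_powersetCard] at hT
      rw [sum_const, card_powersetCard, card_compl, hT.2, nsmul_eq_mul]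
  -- lower bound
  have hlo : (((Fintype.card V) - u).choose t : ℕ) * ((m0 : ℝ) * t / (2 * ((Fintype.card V : ℝ) - u))) *
      (((cf G).card : ℝ) * (u * (Fintype.card V).choose u) *
      Ex G u (fun σ U i => ind (Bad G D θ σ U i ∧ (m0 ≤ tm σ U i ∧ (tm σ U i : ℝ) ≤ m1)))) ≤
      ∑ U ∈ powersetCard u (univ : Finset V), ∑ T ∈ powersetCard t Uᶜ,
      ∑ i ∈ U, ∑ σ ∈ cf G, ind (Bad G D θ σ U i ∧ One σ U T i) := by
    rw [← sum_eq_Ex hne hu hun
      (fun σ U i => ind (Bad G D θ σ U i ∧ (m0 ≤ tm σ U i ∧ (tm σ U i : ℝ) ≤ m1))), mul_sum]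
    apply sum_le_sum
    intro U hU
    rw [mem_powersetCard] at hU
    rw [sum_comm (s := powersetCard t Uᶜ) (t := U), mul_sum]
    apply sum_le_sum
    intro i hi
    rw [sum_comm (s := powersetCard t Uᶜ) (t := cf G), mul_sum]
    apply sum_le_sum
    intro σ _
    by_cases hb : Bad G D θ σ U i ∧ (m0 ≤ tm σ U i ∧ (tm σ U i : ℝ) ≤ m1)
    · rw [ind_true hb, mul_one]
      obtain ⟨hb, h0, h1⟩ := hb
      have hcard : (Uᶜ : Finset V).card = Fintype.card V - u := by rw [card_compl, hU.2]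
      have hcard' : ((Uᶜ : Finset V).card : ℝ) = (Fintype.card V : ℝ) - u := by
        rw [hcard, Nat.cast_sub hun]
      have h2 := exactly_one (S := Uᶜ) t (tm σ U i) (fun a => σ.symm^[a + 1] i)
        (fun a ha => by rw [mem_compl]; exact tm_min σ ha)
        (fun a ha c hc h => by
          have := (iter_inj σ hi hi (j := a + 1) (j' := c + 1) (by omega) (by omega) h).1
          omega)
        (by rw [hcard]; omega)
        (by
          rw [hcard']
          refine le_trans ?_ hm1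
          apply div_le_div_of_nonneg_right _ hr.le
          exact mul_le_mul_of_nonneg_right h1 (by positivity))
      rw [hcard', hcard] at h2
      have h3 : ∑ T ∈ powersetCard t Uᶜ, ind (Bad G D θ σ U i ∧ One σ U T i) =
          (((powersetCard t Uᶜ).filter fun T => ∃ a < tm σ U i, σ.symm^[a + 1] i ∈ T ∧
            ∀ c < tm σ U i, c ≠ a → σ.symm^[c + 1] i ∉ T).card : ℝ) := by
        classical
        have : ∀ T ∈ powersetCard t Uᶜ, ind (Bad G D θ σ U i ∧ One σ U T i) =
            if (∃ a < tm σ U i, σ.symm^[a + 1] i ∈ T ∧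
            ∀ c < tm σ U i, c ≠ a → σ.symm^[c + 1] i ∉ T) then (1 : ℝ) else 0 := by
          intro T _
          unfold ind One
          simp only [hb, true_and]
        rw [sum_congr rfl this, ← sum_filter, sum_const, nsmul_eq_mul, mul_one]
      rw [h3]
      refine le_trans ?_ h2
      apply mul_le_mul_of_nonneg_left _ (by positivity)
      apply div_le_div_of_nonneg_right _ (by positivity)
      apply mul_le_mul_of_nonneg_right _ (by positivity)
      exact_mod_cast h0
    · rw [ind_false hb, mul_zero]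
      exact sum_nonneg fun T _ => ind_nonneg _
  have h := hlo.trans hup
  have hsw : ((Fintype.card V).choose u : ℝ) * ((Fintype.card V - u).choose t : ℕ) =
      (Fintype.card V).choose t * ((Fintype.card V - t).choose u : ℕ) := by
    exact_mod_cast choose_swap
  have h1 : (0 : ℝ) < (cf G).card := by exact_mod_cast card_pos.2 hne
  have hC : (0 : ℝ) < (Fintype.card V).choose u := by exact_mod_cast Nat.choose_pos hun
  have hC2 : (0 : ℝ) < ((Fintype.card V - u).choose t : ℕ) := by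
    exact_mod_cast Nat.choose_pos (by omega)
  have hu' : (0 : ℝ) < u := by exact_mod_cast hu
  set A := (m0 : ℝ) * t / (2 * ((Fintype.card V : ℝ) - u)) with hA
  set E1 := Ex G u (fun σ U i => ind (Bad G D θ σ U i ∧ (m0 ≤ tm σ U i ∧ (tm σ U i : ℝ) ≤ m1)))
    with hE1
  set E2 := Ex G u (big G D θ) with hE2
  set E3 := Ex G t (tail G D3 K) with hE3
  set C1 := ((Fintype.card V).choose u : ℝ) with hC1
  set C2 := (((Fintype.card V) - u).choose t : ℝ) with hC2'
  set C3 := ((Fintype.card V).choose t : ℝ) with hC3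
  set C4 := (((Fintype.card V) - t).choose u : ℝ) with hC4
  set N := ((cf G).card : ℝ) with hN
  have e1 : C2 * A * (N * (u * C1) * E1) = (N * C1 * C2 * u) * (A * E1) := by ring
  have e2 : K / D3 * (C2 * (N * (u * C1) * E2)) + C4 * (N * (t * C3) * E3) =
      (N * C1 * C2 * u) * (K / D3 * E2 + t / u * E3) := by
    have : C4 * (N * (t * C3) * E3) = N * t * E3 * (C3 * C4) := by ring
    rw [this, ← hsw]
    field_simp
  rw [e1, e2] at h
  exact le_of_mul_le_mul_left h (by positivity)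

end Pool.Agent.Helper49.CF
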