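import Pool.Agent.Helper49.CF.Cond

/-!
# The start of the path that ends at `i`
-/

set_option linter.unusedSectionVars false

open Finset

namespace Pool.Agent.Helper49.CF

variable {V : Type*} [Fintype V] [DecidableEq V]

/-- the number of steps backwards from `i` before `U` is met -/
noncomputable def tm (σ : Equiv.Perm V) (U : Finset V) (i : V) : ℕ :=
  sInf {t | σ.symm^[t + 1] i ∈ U}

/-- the start of the path off `U` that ends at `i` -/
noncomputable def st (σ : Equiv.Perm V) (U : Finset V) (i : V) : V := σ.symm^[tm σ U i] i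

lemma exists_ret (σ : Equiv.Perm V) {U : Finset V} {i : V} (hi : i ∈ U) :
    ({t | σ.symm^[t + 1] i ∈ U} : Set ℕ).Nonempty := by
  obtain ⟨n, hn, h⟩ := σ.symm.injective.mem_periodicPts i
  refine ⟨n - 1, ?_⟩
  have h1 : n - 1 + 1 = n := by omega
  change σ.symm^[n - 1 + 1] i ∈ U
  rw [h1, h.eq]
  exact hi

lemma tm_spec (σ : Equiv.Perm V) {U : Finset V} {i : V} (hi : i ∈ U) :
    σ.symm^[tm σ U i + 1] i ∈ U := Nat.sInf_mem (exists_ret σ hi)

lemma tm_min (σ : Equiv.Perm V) {U : Finset V} {i : V} {t : ℕ} (ht : t < tm σ U i) :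
    σ.symm^[t + 1] i ∉ U := Nat.notMem_of_lt_sInf ht

lemma tm_eq (σ : Equiv.Perm V) {U : Finset V} {i : V} {t : ℕ} (h1 : σ.symm^[t + 1] i ∈ U)
    (h2 : ∀ s < t, σ.symm^[s + 1] i ∉ U) : tm σ U i = t := by
  apply le_antisymm
  · exact Nat.sInf_le h1
  · apply le_csInf ⟨t, h1⟩
    intro s hs
    by_contra hc
    exact h2 s (by omega) hs

lemma iter_congr {σ τ : Equiv.Perm V} {U : Finset V} {i : V}
    (h : ∀ j ∉ U, τ j = σ j) : ∀ t ≤ tm σ U i, τ.symm^[t] i = σ.symm^[t] i := by
  intro t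
  induction t with
  | zero => intro _; rfl
  | succ t ih =>
    intro ht
    have h1 := ih (by omega)
    rw [Function.iterate_succ_apply', Function.iterate_succ_apply', h1, Equiv.symm_apply_eq]
    have h2 := tm_min σ (show t < tm σ U i by omega)
    rw [Function.iterate_succ_apply'] at h2
    rw [h _ h2, Equiv.apply_symm_apply]

lemma tm_le {σ τ : Equiv.Perm V} {U : Finset V} {i : V} (hi : i ∈ U)
    (h : ∀ j ∉ U, τ j = σ j) : tm τ U i ≤ tm σ U i := by
  apply Nat.sInf_le
  change τ.symm^[tm σ U i + 1] i ∈ U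
  by_contra hc
  have h1 := iter_congr h (tm σ U i) le_rfl
  rw [Function.iterate_succ_apply', h1] at hc
  have h2 := h _ hc
  rw [Equiv.apply_symm_apply] at h2
  have h3 := tm_spec σ hi
  rw [Function.iterate_succ_apply', h2, Equiv.symm_apply_apply] at h3
  exact hc h3

lemma tm_congr {σ τ : Equiv.Perm V} {U : Finset V} {i : V} (hi : i ∈ U)
    (h : ∀ j ∉ U, τ j = σ j) : tm τ U i = tm σ U i :=
  le_antisymm (tm_le hi h) (tm_le hi fun j hj => (h j hj).symm)

lemma st_congr {σ τ : Equiv.Perm V} {U : Finset V} {i : V} (hi : i ∈ U)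
    (h : ∀ j ∉ U, τ j = σ j) : st τ U i = st σ U i := by
  unfold st
  rw [tm_congr hi h, iter_congr h _ le_rfl]

lemma symm_st_mem (σ : Equiv.Perm V) {U : Finset V} {i : V} (hi : i ∈ U) :
    σ.symm (st σ U i) ∈ U := by
  have := tm_spec σ hi
  rwa [Function.iterate_succ_apply'] at this

lemma sameCycle_iter (σ : Equiv.Perm V) (i : V) (t : ℕ) : σ.SameCycle i (σ.symm^[t] i) := by
  induction t with
  | zero => exact Equiv.Perm.SameCycle.refl _ _
  | succ t ih =>
    rw [Function.iterate_succ_apply']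
    refine ih.trans ?_
    refine ⟨-1, ?_⟩
    simp

lemma iter_inj (σ : Equiv.Perm V) {U : Finset V} {i i' : V} (hi : i ∈ U) (hi' : i' ∈ U)
    {j j' : ℕ} (hj : j ≤ tm σ U i) (hj' : j' ≤ tm σ U i')
    (h : σ.symm^[j] i = σ.symm^[j'] i') : j = j' ∧ i = i' := by
  wlog hle : j ≤ j' generalizing i i' j j'
  · have := this hi' hi hj' hj h.symm (by omega)
    exact ⟨this.1.symm, this.2.symm⟩
  obtain ⟨s, rfl⟩ := Nat.exists_eq_add_of_le hle
  rw [Function.iterate_add_apply] at h
  have h1 := (σ.symm.injective.iterate j) h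
  rcases Nat.eq_zero_or_pos s with hs | hs
  · subst hs; exact ⟨rfl, h1⟩
  · exfalso
    obtain ⟨t, rfl⟩ : ∃ t, s = t + 1 := ⟨s - 1, by omega⟩
    have h2 := tm_min σ (show t < tm σ U i' by omega)
    rw [← h1] at h2
    exact h2 hi

lemma st_inj (σ : Equiv.Perm V) {U : Finset V} {i i' : V} (hi : i ∈ U) (hi' : i' ∈ U)
    (h : st σ U i = st σ U i') : i = i' :=
  (iter_inj σ hi hi' le_rfl le_rfl h).2

/-- if `i` is the only element of `U` in its cycle, then `σ i` is the start of the path. -/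
lemma closing (σ : Equiv.Perm V) {U : Finset V} {i : V} (hi : i ∈ U)
    (h : ∀ y ∈ U, σ.SameCycle i y → y = i) : σ i = st σ U i := by
  have h1 := h _ (tm_spec σ hi) (sameCycle_iter σ i _)
  rw [Function.iterate_succ_apply', Equiv.symm_apply_eq] at h1
  exact h1.symm

lemma closing' (σ : Equiv.Perm V) {U : Finset V} {i : V}
    (h : σ.symm^[tm σ U i + 1] i = i) : σ i = st σ U i := by
  rw [Function.iterate_succ_apply', Equiv.symm_apply_eq] at h
  exact h.symm

lemma split {σ : Equiv.Perm V} {U U3 : Finset V} {i : V} (hi : i ∈ U) {a : ℕ}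
    (ha : a < tm σ U i) (hx : σ.symm^[a + 1] i ∈ U3)
    (hb : ∀ c < tm σ U i, c ≠ a → σ.symm^[c + 1] i ∉ U3) :
    σ (σ.symm^[a + 1] i) = st σ (U ∪ U3) i ∧ st σ (U ∪ U3) (σ.symm^[a + 1] i) = st σ U i := by
  have e1 : tm σ (U ∪ U3) i = a := by
    apply tm_eq
    · exact mem_union_right _ hx
    · intro s hs
      rw [mem_union, not_or]
      exact ⟨tm_min σ (by omega), hb s (by omega) (by omega)⟩
  have e2 : tm σ (U ∪ U3) (σ.symm^[a + 1] i) = tm σ U i - a - 1 := by
    apply tm_eq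
    · rw [← Function.iterate_add_apply]
      have : tm σ U i - a - 1 + 1 + (a + 1) = tm σ U i + 1 := by omega
      rw [this]
      exact mem_union_left _ (tm_spec σ hi)
    · intro s hs
      rw [← Function.iterate_add_apply]
      have : s + 1 + (a + 1) = (s + a + 1) + 1 := by omega
      rw [this, mem_union, not_or]
      exact ⟨tm_min σ (by omega), hb _ (by omega) (by omega)⟩
  constructor
  · unfold st
    rw [e1, Function.iterate_succ_apply', Equiv.apply_symm_apply]
  · unfold st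
    rw [e2, ← Function.iterate_add_apply]
    congr 1
    have : tm σ U i - a - 1 + (a + 1) = tm σ U i := by omega
    rw [this]

lemma sum_tm_le (σ : Equiv.Perm V) (U : Finset V) :
    ∑ i ∈ U, (tm σ U i + 1) ≤ Fintype.card V := by
  have h : ∑ i ∈ U, (tm σ U i + 1) = (U.sigma fun i => range (tm σ U i + 1)).card := by
    rw [card_sigma]; simp
  rw [h, ← card_univ]
  apply card_le_card_of_injOn (fun x => σ.symm^[x.2] x.1) (fun _ _ => mem_coe.2 (mem_univ _))
  rintro ⟨i, j⟩ h1 ⟨i', j'⟩ h2 h3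
  simp only [mem_coe, mem_sigma, mem_range] at h1 h2
  have h4 : j = j' ∧ i = i' :=
    iter_inj σ h1.1 h2.1 (Nat.lt_succ_iff.1 h1.2) (Nat.lt_succ_iff.1 h2.2) h3
  obtain ⟨rfl, rfl⟩ := h4
  rfl

end Pool.Agent.Helper49.CF
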