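import Pool.Agent.Helper49.CF.Perm
import Pool.Agent.Helper49.CF.Beta

/-!
# The sum of the slacks
-/

set_option linter.unusedSectionVars false

open Finset

namespace Pool.Agent.Helper49.CF

variable {V : Type*} [Fintype V] [DecidableEq V]

lemma Dn_le {k d u : ℕ} (hk : 1 ≤ k) (hd : 2 ≤ d) (hu : 1 ≤ u) :
    Dn d (k * d) u ≤ 1 + (u : ℝ) / k := by
  have hk' : (1 : ℝ) ≤ k := by exact_mod_cast hk
  have hd' : (2 : ℝ) ≤ d := by exact_mod_cast hd
  have hu' : (1 : ℝ) ≤ u := by exact_mod_cast hu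
  have hn : (0 : ℝ) < (k : ℝ) * d - 1 := by nlinarith
  unfold Dn
  push_cast
  have : ((d : ℝ) - 1) * (u - 1) / (k * d - 1) ≤ (u : ℝ) / k := by
    rw [div_le_div_iff₀ hn (by linarith)]
    nlinarith
  linarith

lemma Dn_ge {k d u : ℕ} (hk : 1 ≤ k) (hd : 2 ≤ d) (hu : u ≤ k * d) :
    (u : ℝ) / k ≤ Dn d (k * d) u := by
  have hk' : (1 : ℝ) ≤ k := by exact_mod_cast hk
  have hd' : (2 : ℝ) ≤ d := by exact_mod_cast hd
  have hu' : (u : ℝ) ≤ k * d := by exact_mod_cast hu
  have hn : (0 : ℝ) < (k : ℝ) * d - 1 := by nlinarith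
  unfold Dn
  push_cast
  have e : 1 + ((d : ℝ) - 1) * (u - 1) / (k * d - 1) =
      ((k * d - 1) + ((d : ℝ) - 1) * (u - 1)) / (k * d - 1) := by
    rw [add_div, div_self hn.ne']
  rw [e, div_le_div_iff₀ (by linarith) hn]
  nlinarith [mul_nonneg (show (0 : ℝ) ≤ (k : ℝ) - 1 by linarith)
    (show (0 : ℝ) ≤ (k : ℝ) * d - u by linarith)]

lemma sum_log_le (k : ℕ) (hk : 1 ≤ k) (d : ℕ) :
    ∑ u ∈ range (k * d), Real.log (1 + ((u + 1 : ℕ) : ℝ) / k) ≤
      k * ∑ q ∈ range d, Real.log ((q : ℝ) + 2) := by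
  have hk' : (0 : ℝ) < k := by exact_mod_cast hk
  induction d with
  | zero => simp
  | succ d ih =>
    rw [Nat.mul_succ, sum_range_add, sum_range_succ, mul_add]
    apply add_le_add ih
    have h : ∀ x ∈ range k, Real.log (1 + ((k * d + x + 1 : ℕ) : ℝ) / k) ≤
        Real.log ((d : ℝ) + 2) := by
      intro x hx
      rw [mem_range] at hx
      apply Real.log_le_log (by positivity)
      have : ((k * d + x + 1 : ℕ) : ℝ) ≤ k * d + k := by
        exact_mod_cast (by omega : k * d + x + 1 ≤ k * d + k)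
      have h2 : ((k * d + x + 1 : ℕ) : ℝ) / k ≤ d + 1 := by
        rw [div_le_iff₀ hk']
        linarith
      linarith
    have := sum_le_sum h
    rw [sum_const, card_range, nsmul_eq_mul] at this
    exact this

lemma sum_log_two (d : ℕ) (hd : 1 ≤ d) :
    ∑ q ∈ range d, Real.log ((q : ℝ) + 2) ≤
      Real.log (d + 1) + 1 + Real.log d + d * Real.log d - d := by
  induction d, hd using Nat.le_induction with
  | base => norm_num
  | succ d hd ih =>
    rw [sum_range_succ]
    have hd' : (1 : ℝ) ≤ d := by exact_mod_cast hd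
    have h1 : 1 / ((d : ℝ) + 1) ≤ Real.log (d + 1) - Real.log d := by
      have h2 := Real.one_sub_inv_le_log_of_pos (show 0 < ((d : ℝ) + 1) / d by positivity)
      rw [Real.log_div (by positivity) (by positivity)] at h2
      have h3 : 1 - (((d : ℝ) + 1) / d)⁻¹ = 1 / (d + 1) := by
        field_simp
        ring
      linarith
    have h2 := mul_le_mul_of_nonneg_left h1 (show 0 ≤ (d : ℝ) + 1 by positivity)
    have h3 : ((d : ℝ) + 1) * (1 / (d + 1)) = 1 := by field_simp
    rw [h3] at h2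
    push_cast
    have e : (d : ℝ) + 1 + 1 = d + 2 := by ring
    rw [e]
    nlinarith [h2, ih]

lemma sum_sl {G : V → V → Prop} {k d : ℕ} (hk : 1 ≤ k) (hd : 2 ≤ d) (hG : Reg G d)
    (hV : Fintype.card V = k * d) :
    ∑ u ∈ range (k * d), sl G d (u + 1) ≤ k * (2 * Real.log (d + 1) + 1) := by
  have hne := cf_nonempty hd hG
  have hd' : (2 : ℝ) ≤ d := by exact_mod_cast hd
  have hk' : (1 : ℝ) ≤ k := by exact_mod_cast hk
  unfold sl
  rw [sum_sub_distrib]
  have h1 := sum_en hne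
  rw [hV] at h1 ⊢
  rw [h1]
  have h2 := log_card_cf_ge hd hG
  rw [hV] at h2
  have h3 : ∑ u ∈ range (k * d), Real.log (Dn d (k * d) (u + 1)) ≤
      ∑ u ∈ range (k * d), Real.log (1 + ((u + 1 : ℕ) : ℝ) / k) := by
    apply sum_le_sum
    intro u _
    have hn : 2 ≤ k * d := by nlinarith
    have := Dn_ge_one (d := d) (by omega) hn (show 1 ≤ u + 1 by omega)
    exact Real.log_le_log (by linarith) (Dn_le hk hd (by omega))
  have h4 := sum_log_le k hk d
  have h5 := sum_log_two d (by omega)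
  have h6 := mul_le_mul_of_nonneg_left h5 (show (0 : ℝ) ≤ k by linarith)
  have h7 : Real.log d ≤ Real.log (d + 1) := Real.log_le_log (by linarith) (by linarith)
  have h8 := mul_le_mul_of_nonneg_left h7 (show (0 : ℝ) ≤ k by linarith)
  push_cast at h2
  nlinarith [h2, h3, h4, h6, h8]

end Pool.Agent.Helper49.CF
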