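import Pool.Agent.Helper49.CF.Defs

/-!
# Averages over subsets and telescoping
-/

set_option linter.unusedSectionVars false

open Finset

namespace Pool.Agent.Helper49.CF

variable {V : Type*} [Fintype V] [DecidableEq V]

/-- the average of `g U i` over the subsets `U` with `u` elements and `i ∈ U`. -/
noncomputable def av (u : ℕ) (g : Finset V → V → ℝ) : ℝ :=
  (∑ U ∈ powersetCard u (univ : Finset V), ∑ i ∈ U, g U i) / (u * (Fintype.card V).choose u)

lemma sum_insert_erase (u : ℕ) (g : Finset V → V → ℝ) :
    ∑ U ∈ powersetCard (u + 1) (univ : Finset V), ∑ i ∈ U, g (U.erase i) i =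
      ∑ U ∈ powersetCard u (univ : Finset V), ∑ i ∈ Uᶜ, g U i := by
  rw [sum_sigma', sum_sigma']
  refine sum_nbij' (fun x => ⟨x.1.erase x.2, x.2⟩) (fun x => ⟨insert x.2 x.1, x.2⟩) ?_ ?_ ?_ ?_ ?_
  · rintro ⟨U, i⟩ h
    simp only [mem_sigma, mem_powersetCard, subset_univ, true_and, mem_compl, mem_erase, ne_eq,
      not_true_eq_false, false_and, not_false_eq_true, and_true] at h ⊢
    rw [card_erase_of_mem h.2, h.1]; rfl
  · rintro ⟨U, i⟩ h
    simp only [mem_sigma, mem_powersetCard, subset_univ, true_and, mem_compl, mem_insert, true_or,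
      and_true] at h ⊢
    rw [card_insert_of_notMem h.2, h.1]
  · rintro ⟨U, i⟩ h
    simp only [mem_sigma, mem_powersetCard, subset_univ, true_and] at h
    simp [insert_erase h.2]
  · rintro ⟨U, i⟩ h
    simp only [mem_sigma, mem_powersetCard, subset_univ, true_and, mem_compl] at h
    simp [erase_insert h.2]
  · rintro ⟨U, i⟩ h
    rfl

/-- the average of `F` over the subsets with `u` elements -/
noncomputable def lev (u : ℕ) (F : Finset V → ℝ) : ℝ :=
  (∑ U ∈ powersetCard u (univ : Finset V), F U) / ((Fintype.card V).choose u)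

lemma av_const {u : ℕ} (hu : 1 ≤ u) (F : Finset V → ℝ) :
    av u (fun U _ => F U) = lev u F := by
  unfold av lev
  have h : ∑ U ∈ powersetCard u (univ : Finset V), ∑ i ∈ U, F U =
      u * ∑ U ∈ powersetCard u (univ : Finset V), F U := by
    rw [mul_sum]
    refine sum_congr rfl fun U hU => ?_
    rw [mem_powersetCard] at hU
    rw [sum_const, hU.2, nsmul_eq_mul]
  rw [h]
  have : (u : ℝ) ≠ 0 := by positivity
  rw [mul_div_mul_left _ _ this]

lemma av_erase {u : ℕ} (hu : u < Fintype.card V) (F : Finset V → ℝ) :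
    av (u + 1) (fun U i => F (U.erase i)) = lev u F := by
  unfold av lev
  rw [sum_insert_erase u (fun U _ => F U)]
  have h : ∑ U ∈ powersetCard u (univ : Finset V), ∑ i ∈ Uᶜ, F U =
      ((Fintype.card V : ℝ) - u) * ∑ U ∈ powersetCard u (univ : Finset V), F U := by
    rw [mul_sum]
    refine sum_congr rfl fun U hU => ?_
    rw [mem_powersetCard] at hU
    rw [sum_const, card_compl, hU.2, nsmul_eq_mul, Nat.cast_sub hu.le]
  rw [h]
  have h2 : ((u + 1 : ℕ) : ℝ) * (Fintype.card V).choose (u + 1) =
      ((Fintype.card V : ℝ) - u) * (Fintype.card V).choose u := by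
    have := Nat.choose_succ_right_eq (Fintype.card V) u
    rw [mul_comm]
    rw [← Nat.cast_sub hu.le]
    rw [mul_comm (((Fintype.card V - u : ℕ)) : ℝ)]
    exact_mod_cast this
  rw [h2]
  have : ((Fintype.card V : ℝ) - u) ≠ 0 := by
    have : (u : ℝ) < Fintype.card V := by exact_mod_cast hu
    linarith
  rw [mul_div_mul_left _ _ this]

lemma av_sub (u : ℕ) (f g : Finset V → V → ℝ) :
    av u (fun U i => f U i - g U i) = av u f - av u g := by
  unfold av
  simp only [sum_sub_distrib, sub_div]

theorem tel (F : Finset V → ℝ) :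
    ∑ u ∈ range (Fintype.card V), av (u + 1) (fun U i => F U - F (U.erase i)) =
      F univ - F ∅ := by
  have h : ∀ u ∈ range (Fintype.card V),
      av (u + 1) (fun U i => F U - F (U.erase i)) = lev (u + 1) F - lev u F := by
    intro u hu
    rw [mem_range] at hu
    rw [av_sub, av_const (by omega), av_erase hu]
  rw [sum_congr rfl h, sum_range_sub (fun u => lev u F)]
  congr 1
  · unfold lev
    rw [← card_univ, powersetCard_self]
    simp
  · simp [lev]

end Pool.Agent.Helper49.CF
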