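import Pool.Agent.Helper49.CF.Mid

/-!
# The sum of the closing probabilities
-/

set_option linter.unusedSectionVars false

open Finset

namespace Pool.Agent.Helper49.CF

variable {V : Type*} [Fintype V] [DecidableEq V]

lemma Bd_nonneg {K K0 δ θ D0 s : ℝ} (hK0 : 0 < K) (hK : 1 < Real.log K)
    (hK00 : 0 < K0) (hθ : 1 < θ) (hδ : 0 < δ) (hs0 : 0 ≤ s) (hD0 : 1 ≤ D0) :
    0 ≤ Bd K K0 δ θ D0 s := by
  have hL : 0 < Real.log K - 1 := by linarith
  have hphi := phi_pos hθ
  unfold Bd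
  positivity

lemma pr_point {G : V → V → Prop} {k d u : ℕ} (hk : 1 ≤ k) (hd : 2 ≤ d) (hG : Reg G d)
    (hV : Fintype.card V = k * d) {K K0 δ θ D0 s : ℝ} (hK0 : 0 < K) (hK : 1 < Real.log K)
    (hK00 : 0 < K0) (hθ : 1 < θ) (hδ : 0 < δ) (hδ4 : δ ≤ 1 / 4) (hs0 : 0 ≤ s)
    (hs : ∑ u ∈ range (k * d), sl G d (u + 1) ≤ k * s) (hD0 : 1 ≤ D0) (hD04 : 4 ≤ δ * D0)
    (hu : 1 ≤ u) (hun : u ≤ k * d) :
    pr G u ≤ (if u < k then 1 else 0) +
      (θ + K * Bd K K0 δ θ D0 s) * (if k ≤ u then (k : ℝ) / (u : ℝ) else 0) +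
      K * (if (k ≤ u ∧ (u : ℝ) < k * D0) then (k : ℝ) / (u : ℝ) else 0) +
      K * (if δ * ((k * d : ℕ) : ℝ) < (u : ℝ) then (k : ℝ) / (u : ℝ) else 0) +
      (K / K0 + 1 / (Real.log K - 1)) * sl G d u := by
  have hne := cf_nonempty hd hG
  have hn : 2 ≤ k * d := by nlinarith
  have hL : 0 < Real.log K - 1 := by linarith
  have hB := Bd_nonneg (K := K) (K0 := K0) (δ := δ) (θ := θ) (D0 := D0) (s := s)
    hK0 hK hK00 hθ hδ hs0 hD0
  have hun' : u ≤ Fintype.card V := by rw [hV]; exact hun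
  have hn' : 2 ≤ Fintype.card V := by rw [hV]; exact hn
  have hsl := sl_nonneg hG hne (by omega) hu hun' hn'
  have hk' : (0 : ℝ) < k := by exact_mod_cast hk
  have hu' : (0 : ℝ) < u := by exact_mod_cast hu
  have hD := Dn_ge hk hd hun
  have hku : 0 < (k : ℝ) / u := by positivity
  have n1 : (0 : ℝ) ≤ if u < k then 1 else 0 := by split_ifs <;> norm_num
  have n2 : 0 ≤ (θ + K * Bd K K0 δ θ D0 s) * (if k ≤ u then (k : ℝ) / (u : ℝ) else 0) := by
    split_ifs <;> positivity
  have n3 : 0 ≤ K * (if (k ≤ u ∧ (u : ℝ) < k * D0) then (k : ℝ) / (u : ℝ) else 0) := by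
    split_ifs <;> positivity
  have n4 : 0 ≤ K * (if δ * ((k * d : ℕ) : ℝ) < (u : ℝ) then (k : ℝ) / (u : ℝ) else 0) := by
    split_ifs <;> positivity
  have n5 : 0 ≤ K / K0 * sl G d u := by positivity
  have n6 : 0 ≤ 1 / (Real.log K - 1) * sl G d u := by positivity
  have e0 : (K / K0 + 1 / (Real.log K - 1)) * sl G d u =
      K / K0 * sl G d u + 1 / (Real.log K - 1) * sl G d u := by ring
  rw [e0]
  by_cases h1 : u < k
  · have := pr_le_one hne hu hun'
    rw [if_pos h1] at n1 ⊢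
    linarith
  · have h1' : k ≤ u := not_lt.1 h1
    have hDinv : ∀ x : ℝ, 0 ≤ x → x / Dn d (k * d) u ≤ x * (k / u) := by
      intro x hx
      have hD1 : 0 < Dn d (k * d) u := lt_of_lt_of_le (by positivity) hD
      rw [div_le_iff₀ hD1, mul_assoc]
      nth_rewrite 1 [← mul_one x]
      apply mul_le_mul_of_nonneg_left _ hx
      have := mul_le_mul_of_nonneg_left hD hku.le
      refine le_trans (le_of_eq ?_) this
      field_simp
    have hc : pr G u ≤ K * (k / u) + 1 / (Real.log K - 1) * sl G d u := by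
      have h2 := pr_le' hG hne (by omega) hu hun' hn' hK0 hK
      rw [hV] at h2
      have h3 := hDinv K hK0.le
      have h4 : sl G d u / (Real.log K - 1) = 1 / (Real.log K - 1) * sl G d u := by ring
      linarith
    by_cases h2 : (u : ℝ) < k * D0
    · have h12 : k ≤ u ∧ (u : ℝ) < k * D0 := ⟨h1', h2⟩
      rw [if_pos h12] at n3 ⊢
      linarith
    · by_cases h3 : δ * ((k * d : ℕ) : ℝ) < (u : ℝ)
      · rw [if_pos h3] at n4 ⊢
        linarith
      · by_cases h4 : sl G d u ≤ K0 * k / u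
        · rw [not_lt] at h2 h3
          push_cast at h3
          have h5 := beta_mid hk hd hG hV hK0 hK hK00 hθ hδ hδ4 hs0 hs hD0 hD04 h2 h3 h4
          have h6 := pr_le hG hne (by omega) hu hun' hn' hK0 hK (θ := θ) (by linarith)
          rw [hV] at h6
          have hD1 : 0 < Dn d (k * d) u := lt_of_lt_of_le (by positivity) hD
          have h7 : K / Dn d (k * d) u * beta G d u θ ≤
              K / Dn d (k * d) u * Bd K K0 δ θ D0 s :=
            mul_le_mul_of_nonneg_left h5 (by positivity)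
          have h8 := hDinv (θ + K * Bd K K0 δ θ D0 s) (by positivity)
          have h9 : (θ + K * Bd K K0 δ θ D0 s) / Dn d (k * d) u =
              θ / Dn d (k * d) u + K / Dn d (k * d) u * Bd K K0 δ θ D0 s := by ring
          have h10 : sl G d u / (Real.log K - 1) = 1 / (Real.log K - 1) * sl G d u := by ring
          rw [if_pos h1'] at n2 ⊢
          linarith
        · rw [not_le] at h4
          have h5 : K * (k / u) ≤ K / K0 * sl G d u := by
            have h6 := mul_le_mul_of_nonneg_left h4.le (show 0 ≤ K / K0 by positivity)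
            refine le_trans (le_of_eq ?_) h6
            field_simp
          linarith

lemma sum_ite_lt (k n : ℕ) : ∑ u ∈ range n, (if u + 1 < k then (1 : ℝ) else 0) ≤ k := by
  rw [← sum_filter, sum_const, nsmul_eq_mul, mul_one]
  have : (range n).filter (fun u => u + 1 < k) ⊆ range k := by
    intro u hu
    rw [mem_filter] at hu
    rw [mem_range]; omega
  have := card_le_card this
  rw [card_range] at this
  exact_mod_cast this

theorem sum_pr_le {G : V → V → Prop} {k d : ℕ} (hk : 1 ≤ k) (hd : 2 ≤ d) (hG : Reg G d)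
    (hV : Fintype.card V = k * d) {K K0 δ θ D0 s : ℝ} (hK0 : 0 < K) (hK : 1 < Real.log K)
    (hK00 : 0 < K0) (hθ : 1 < θ) (hδ : 0 < δ) (hδ4 : δ ≤ 1 / 4) (hs0 : 0 ≤ s)
    (hs : ∑ u ∈ range (k * d), sl G d (u + 1) ≤ k * s) (hD0 : 1 ≤ D0) (hD04 : 4 ≤ δ * D0) :
    ∑ u ∈ range (k * d), pr G (u + 1) ≤
      k * (1 + (θ + K * Bd K K0 δ θ D0 s) * (1 + Real.log d) + K * (1 + Real.log D0) + K / δ +
        (K / K0 + 1 / (Real.log K - 1)) * s) := by
  have hL : 0 < Real.log K - 1 := by linarith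
  have hB := Bd_nonneg (K := K) (K0 := K0) (δ := δ) (θ := θ) (D0 := D0) (s := s)
    hK0 hK hK00 hθ hδ hs0 hD0
  have hk' : (1 : ℝ) ≤ k := by exact_mod_cast hk
  have hd' : (2 : ℝ) ≤ d := by exact_mod_cast hd
  have h1 : ∀ u ∈ range (k * d), pr G (u + 1) ≤ (if u + 1 < k then 1 else 0) +
      (θ + K * Bd K K0 δ θ D0 s) *
        (if k ≤ u + 1 then (k : ℝ) / ((u + 1 : ℕ) : ℝ) else 0) +
      K * (if (k ≤ u + 1 ∧ ((u + 1 : ℕ) : ℝ) < k * D0) then (k : ℝ) / ((u + 1 : ℕ) : ℝ) else 0) +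
      K * (if δ * ((k * d : ℕ) : ℝ) < ((u + 1 : ℕ) : ℝ) then
        (k : ℝ) / ((u + 1 : ℕ) : ℝ) else 0) +
      (K / K0 + 1 / (Real.log K - 1)) * sl G d (u + 1) := by
    intro u hu
    rw [mem_range] at hu
    exact pr_point hk hd hG hV hK0 hK hK00 hθ hδ hδ4 hs0 hs hD0 hD04 (by omega) (by omega)
  refine (sum_le_sum h1).trans ?_
  simp only [sum_add_distrib, ← mul_sum]
  have a1 := sum_ite_lt k (k * d)
  have a2 := W_le hk (n := k * d) (x := d) (by linarith) (by push_cast; exact le_refl _)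
  have a3 := W_low hk (k * d) hD0
  have a4 := W_high (k := k) (n := k * d) hδ (by nlinarith)
  have hx : 0 ≤ Real.log d := Real.log_nonneg (by linarith)
  have hy : 0 ≤ Real.log D0 := Real.log_nonneg hD0
  have b2 := mul_le_mul_of_nonneg_left a2
    (show 0 ≤ θ + K * Bd K K0 δ θ D0 s by positivity)
  have b3 := mul_le_mul_of_nonneg_left a3 hK0.le
  have b4 := mul_le_mul_of_nonneg_left a4 hK0.le
  have b5 := mul_le_mul_of_nonneg_left hs
    (show 0 ≤ K / K0 + 1 / (Real.log K - 1) by positivity)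
  have c2 : (θ + K * Bd K K0 δ θ D0 s) * (1 + k * Real.log d) ≤
      (θ + K * Bd K K0 δ θ D0 s) * (k + k * Real.log d) :=
    mul_le_mul_of_nonneg_left (by linarith) (by positivity)
  have c3 : K * (1 + k * Real.log D0) ≤ K * (k + k * Real.log D0) :=
    mul_le_mul_of_nonneg_left (by linarith) (by positivity)
  have e : (k : ℝ) * (1 + (θ + K * Bd K K0 δ θ D0 s) * (1 + Real.log d) +
      K * (1 + Real.log D0) + K / δ + (K / K0 + 1 / (Real.log K - 1)) * s) =
      k + (θ + K * Bd K K0 δ θ D0 s) * (k + k * Real.log d) + K * (k + k * Real.log D0) +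
      K * (k / δ) + (K / K0 + 1 / (Real.log K - 1)) * (k * s) := by ring
  rw [e]
  linarith

end Pool.Agent.Helper49.CF
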