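import Pool.Agent.Helper49.CF.Total

/-!
# The upper bound
-/

set_option linter.unusedSectionVars false

open Finset Filter

namespace Pool.Agent.Helper49.CF

variable {V : Type*} [Fintype V] [DecidableEq V]

/-- the ratio -/
noncomputable def Rt (K K0 δ θ ℓ : ℝ) : ℝ :=
  (1 + (θ + K * Bd K K0 δ θ (ℓ ^ 2) (2 * ℓ + 3)) * (1 + ℓ) + K * (1 + Real.log (ℓ ^ 2)) + K / δ +
        (K / K0 + 1 / (Real.log K - 1)) * (2 * ℓ + 3)) / ℓ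

lemma tendsto_Rt {K K0 δ θ : ℝ} (hK : 1 < Real.log K) (hθ : 1 < θ) (hδ : 0 < δ) :
    Tendsto (Rt K K0 δ θ) atTop
      (nhds (θ + K * (6 * δ) + (K / K0 + 1 / (Real.log K - 1)) * 2)) := by
  have hL : Real.log K - 1 ≠ 0 := by linarith
  have hphi := (phi_pos hθ).ne'
  have hy : Tendsto (fun ℓ : ℝ => ℓ⁻¹) atTop (nhds 0) := tendsto_inv_atTop_zero
  have hl : Tendsto (fun ℓ : ℝ => Real.log ℓ ^ 1 / (1 * ℓ + 0)) atTop (nhds 0) :=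
    Real.tendsto_pow_log_div_mul_add_atTop 1 0 1 one_ne_zero
  have hB : Tendsto (fun ℓ : ℝ => K * ℓ⁻¹ ^ 2 + K0 / (Real.log K - 1) * ℓ⁻¹ ^ 2 + 6 * δ +
      16 * K * K0 / (δ ^ 3 * phi θ) * ℓ⁻¹ ^ 2 +
      8 / (δ ^ 2 * (Real.log K - 1)) * (2 * ℓ⁻¹ + 3 * ℓ⁻¹ ^ 2)) atTop
      (nhds (K * 0 ^ 2 + K0 / (Real.log K - 1) * 0 ^ 2 + 6 * δ +
      16 * K * K0 / (δ ^ 3 * phi θ) * 0 ^ 2 +
      8 / (δ ^ 2 * (Real.log K - 1)) * (2 * 0 + 3 * 0 ^ 2))) := by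
    have h2 := hy.pow 2
    exact ((((h2.const_mul K).add (h2.const_mul _)).add tendsto_const_nhds).add
      (h2.const_mul _)).add (((hy.const_mul 2).add (h2.const_mul 3)).const_mul _)
  have hR : Tendsto (fun ℓ : ℝ => ℓ⁻¹ + (θ + K * (K * ℓ⁻¹ ^ 2 +
      K0 / (Real.log K - 1) * ℓ⁻¹ ^ 2 + 6 * δ +
      16 * K * K0 / (δ ^ 3 * phi θ) * ℓ⁻¹ ^ 2 +
      8 / (δ ^ 2 * (Real.log K - 1)) * (2 * ℓ⁻¹ + 3 * ℓ⁻¹ ^ 2))) * (ℓ⁻¹ + 1) +
      K * (ℓ⁻¹ + 2 * (Real.log ℓ ^ 1 / (1 * ℓ + 0))) + K / δ * ℓ⁻¹ +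
      (K / K0 + 1 / (Real.log K - 1)) * (2 + 3 * ℓ⁻¹)) atTop
      (nhds (0 + (θ + K * (K * 0 ^ 2 + K0 / (Real.log K - 1) * 0 ^ 2 + 6 * δ +
      16 * K * K0 / (δ ^ 3 * phi θ) * 0 ^ 2 +
      8 / (δ ^ 2 * (Real.log K - 1)) * (2 * 0 + 3 * 0 ^ 2))) * (0 + 1) +
      K * (0 + 2 * 0) + K / δ * 0 +
      (K / K0 + 1 / (Real.log K - 1)) * (2 + 3 * 0))) := by
    exact (((hy.add (((hB.const_mul K).const_add θ).mul (hy.add_const 1))).add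
      ((hy.add (hl.const_mul 2)).const_mul K)).add (hy.const_mul _)).add
      (((hy.const_mul 3).const_add 2).const_mul _)
  have e : (0 + (θ + K * (K * 0 ^ 2 + K0 / (Real.log K - 1) * 0 ^ 2 + 6 * δ +
      16 * K * K0 / (δ ^ 3 * phi θ) * 0 ^ 2 +
      8 / (δ ^ 2 * (Real.log K - 1)) * (2 * 0 + 3 * 0 ^ 2))) * (0 + 1) +
      K * (0 + 2 * 0) + K / δ * 0 +
      (K / K0 + 1 / (Real.log K - 1)) * (2 + 3 * 0)) =
      θ + K * (6 * δ) + (K / K0 + 1 / (Real.log K - 1)) * 2 := by ring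
  rw [e] at hR
  refine hR.congr' ?_
  filter_upwards [eventually_gt_atTop 0] with ℓ hℓ
  unfold Rt Bd
  rw [Real.log_pow]
  have hℓ' : ℓ ≠ 0 := hℓ.ne'
  have hδ' : δ ≠ 0 := hδ.ne'
  have e1 : K / ℓ ^ 2 = K * ℓ⁻¹ ^ 2 := by field_simp
  have e2 : K0 / (ℓ ^ 2 * (Real.log K - 1)) = K0 / (Real.log K - 1) * ℓ⁻¹ ^ 2 := by field_simp
  have e3 : 16 * K * K0 / (δ ^ 3 * phi θ * ℓ ^ 2) =
      16 * K * K0 / (δ ^ 3 * phi θ) * ℓ⁻¹ ^ 2 := by field_simp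
  have e4 : 8 * (2 * ℓ + 3) / (δ ^ 2 * ℓ ^ 2 * (Real.log K - 1)) =
      8 / (δ ^ 2 * (Real.log K - 1)) * (2 * ℓ⁻¹ + 3 * ℓ⁻¹ ^ 2) := by
    field_simp
  rw [e1, e2, e3, e4]
  set Z := K * ℓ⁻¹ ^ 2 + K0 / (Real.log K - 1) * ℓ⁻¹ ^ 2 + 6 * δ +
    16 * K * K0 / (δ ^ 3 * phi θ) * ℓ⁻¹ ^ 2 +
      8 / (δ ^ 2 * (Real.log K - 1)) * (2 * ℓ⁻¹ + 3 * ℓ⁻¹ ^ 2) with hZ
  set c := K / K0 + 1 / (Real.log K - 1) with hc
  clear_value Z c
  simp only [pow_one, one_mul, add_zero]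
  push_cast
  field_simp

theorem upper {ε : ℝ} (hε : 0 < ε) : ∃ d0 : ℕ, ∀ d ≥ d0, ∀ k ≥ 1, ∀ (V : Type) (_ : Fintype V)
    (_ : DecidableEq V), Fintype.card V = k * d → ∀ G : V → V → Prop, Reg G d →
      Ec G ≤ (1 + ε) * (k * Real.log d) := by
  set θ : ℝ := 1 + ε / 8 with hθ
  set K : ℝ := Real.exp (1 + 16 / ε) with hKd
  have hK0 : 0 < K := Real.exp_pos _
  have hlog : Real.log K = 1 + 16 / ε := Real.log_exp _
  have hK : 1 < Real.log K := by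
    rw [hlog]
    have : 0 < 16 / ε := by positivity
    linarith
  set K0 : ℝ := 16 * K / ε with hK0d
  have hK00 : 0 < K0 := by positivity
  set δ : ℝ := min (1 / 4) (ε / (48 * K)) with hδd
  have hδ : 0 < δ := lt_min (by norm_num) (by positivity)
  have hδ4 : δ ≤ 1 / 4 := min_le_left _ _
  have hδ2 : δ ≤ ε / (48 * K) := min_le_right _ _
  have hθ1 : 1 < θ := by rw [hθ]; linarith
  have hlim : θ + K * (6 * δ) + (K / K0 + 1 / (Real.log K - 1)) * 2 < 1 + ε := by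
    have e1 : K / K0 = ε / 16 := by
      rw [hK0d]; field_simp
    have e2 : 1 / (Real.log K - 1) = ε / 16 := by
      rw [hlog]; field_simp; ring
    have e3 : K * (6 * δ) ≤ ε / 8 := by
      have := mul_le_mul_of_nonneg_left hδ2 (show 0 ≤ K * 6 by positivity)
      have e4 : K * 6 * (ε / (48 * K)) = ε / 8 := by field_simp; ring
      linarith
    rw [e1, e2, hθ]
    linarith
  have h1 : ∀ᶠ ℓ in atTop, Rt K K0 δ θ ℓ < 1 + ε :=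
    (tendsto_Rt (K0 := K0) hK hθ1 hδ).eventually (gt_mem_nhds hlim)
  have h2 : ∀ᶠ ℓ : ℝ in atTop, 1 ≤ ℓ ∧ 4 / δ ≤ ℓ :=
    (eventually_ge_atTop 1).and (eventually_ge_atTop _)
  have h3 : Tendsto (fun d : ℕ => Real.log d) atTop atTop :=
    Real.tendsto_log_atTop.comp tendsto_natCast_atTop_atTop
  obtain ⟨d0, hd0⟩ := eventually_atTop.1 (h3.eventually (h1.and h2))
  refine ⟨max d0 2, fun d hd k hk V _ _ hV G hG => ?_⟩
  obtain ⟨g1, g2, g3⟩ := hd0 d (le_trans (le_max_left _ _) hd)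
  have hd2 : 2 ≤ d := le_trans (le_max_right _ _) hd
  set ℓ := Real.log d with hℓ
  have hs := sum_sl hk hd2 hG hV
  have hk' : (0 : ℝ) < k := by exact_mod_cast hk
  have hd' : (2 : ℝ) ≤ d := by exact_mod_cast hd2
  have hs2 : 2 * Real.log ((d : ℝ) + 1) + 1 ≤ 2 * ℓ + 3 := by
    have a1 : Real.log ((d : ℝ) + 1) ≤ Real.log (2 * d) :=
      Real.log_le_log (by linarith) (by linarith)
    rw [Real.log_mul (by norm_num) (by linarith)] at a1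
    have a2 : Real.log 2 ≤ 1 := by
      have := Real.log_two_lt_d9; linarith
    linarith
  have hs3 : ∑ u ∈ range (k * d), sl G d (u + 1) ≤ k * (2 * ℓ + 3) :=
    hs.trans (mul_le_mul_of_nonneg_left hs2 hk'.le)
  have hD0 : (1 : ℝ) ≤ ℓ ^ 2 := by nlinarith
  have hD04 : 4 ≤ δ * ℓ ^ 2 := by
    rw [div_le_iff₀ hδ] at g3
    nlinarith
  have h4 := sum_pr_le hk hd2 hG hV hK0 hK hK00 hθ1 hδ hδ4 (by linarith) hs3 hD0 hD04
  have h5 := Ec_le G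
  rw [hV] at h5
  refine (h5.trans h4).trans ?_
  rw [mul_left_comm]
  apply mul_le_mul_of_nonneg_left _ hk'.le
  have h6 := g1.le
  unfold Rt at h6
  rw [div_le_iff₀ (by linarith)] at h6
  exact h6

end Pool.Agent.Helper49.CF
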